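import Pool.Agent.H32.BD.Defs2

set_option autoImplicit false

/-!
Crossing lemma: a face `x y z u` of length four, a path `x v w z` and a path `y v' w' u` on different
vertices cannot exist.

Proof. `Z₁ = e₁ + e₂ + p₁ + p₂ + p₃` (cycle `y x v w z`) and `Z₂ = e₂ + e₃ + r₁ + r₂ + r₃` (cycle
`z y v' w' u`) are in `cyc ends`. Take potentials `q`, `q'` for them, adding a constant so that
`q f = q' f = 0`, and `q'' j = q j * (1 + q' j)`, `ζ e = q'' (a e) + q'' (b e)`, `ζ ∈ cyc ends`. For `e` not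
among the `e₁, e₂, e₃, p_i, r_i` `q` and `q'` agree at `a e` and `b e`: `ζ e = 0`. For `e₁` one of `a e₁`, `b e₁` is `f`, for
the other value `j` `q j = 1`, `q' j = 0`: `ζ e₁ = 1`. In the same way `ζ e₂ = 0` (`q j = 1`, `q' j = 1`),
`ζ e₃ = 0` (`q j = 0`). Even at `y`: `ζ r₁ = ζ e₁ = 1`; at `v'`: `ζ r₂ = 1`; at `w'`: `ζ r₃ = 1`; at `u`:
`ζ r₃ = 0` (`ζ e₃ = ζ e₄ = 0`), contradiction.
(`bd s(p, q) t = [t = p] + [t = q]` for `p ≠ q`. The edges are different as their ends are.)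
-/

namespace Pool.Agent.H32.BD

open Finset Pool.Agent.H32.BC

theorem bd_pair {V : Type} [DecidableEq V] (p q t : V) (h : p ≠ q) :
    bd s(p, q) t = (if t = p then 1 else 0) + (if t = q then 1 else 0) := by
  unfold bd
  by_cases h1 : t = p
  · subst h1
    have h2 : t ≠ q := h
    simp [h2]
  · by_cases h2 : t = q
    · subst h2
      simp [h1]
    · have h3 : t ∉ s(p, q) := by
        rw [Sym2.mem_iff]
        rintro (h4 | h4)
        · exact h1 h4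
        · exact h2 h4
      rw [if_neg h3, if_neg h1, if_neg h2, add_zero]

theorem crossing {V E J : Type} [Fintype E] (ends : E → Sym2 V) (x y z u v w v' w' : V)
    (e₁ e₂ e₃ e₄ p₁ p₂ p₃ r₁ r₂ r₃ : E) (h₁ : ends e₁ = s(x, y)) (h₂ : ends e₂ = s(y, z))
    (h₃ : ends e₃ = s(z, u)) (h₄ : ends e₄ = s(u, x)) (hp₁ : ends p₁ = s(x, v))
    (hp₂ : ends p₂ = s(v, w)) (hp₃ : ends p₃ = s(w, z)) (hr₁ : ends r₁ = s(y, v'))
    (hr₂ : ends r₂ = s(v', w')) (hr₃ : ends r₃ = s(w', u))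
    (hd : [x, y, z, u, v, w, v', w'].Nodup) (a b : E → J) (hrep : Rep (cyc ends) a b) (f : J)
    (hstar : ∀ e, e ∈ star a b f ↔ (e = e₁ ∨ e = e₂ ∨ e = e₃ ∨ e = e₄)) : False := by
  classical
  simp only [List.nodup_cons, List.mem_cons, List.not_mem_nil, or_false, not_or, not_false_eq_true,
    List.nodup_nil, and_true] at hd
  obtain ⟨⟨nxy, nxz, nxu, nxv, nxw, nxv', nxw'⟩, ⟨nyz, nyu, nyv, nyw, nyv', nyw'⟩,
    ⟨nzu, nzv, nzw, nzv', nzw'⟩, ⟨nuv, nuw, nuv', nuw'⟩, ⟨nvw, nvv', nvw'⟩, ⟨nwv', nww'⟩, nv'w'⟩ := hd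
  have hmem : ∀ e0 : E, ∀ t : V,
      ∑ e, (Pi.single e0 (1 : ZMod 2) : E → ZMod 2) e * bd (ends e) t = bd (ends e0) t := by
    intro e0 t
    rw [Finset.sum_eq_single e0]
    · rw [Pi.single_eq_same, one_mul]
    · intro e _ he
      rw [Pi.single_eq_of_ne he, zero_mul]
    · intro h
      exact absurd (mem_univ e0) h
  set Z1 : E → ZMod 2 := Pi.single e₁ 1 + Pi.single e₂ 1 + Pi.single p₁ 1 + Pi.single p₂ 1 +
    Pi.single p₃ 1 with hZ1
  set Z2 : E → ZMod 2 := Pi.single e₂ 1 + Pi.single e₃ 1 + Pi.single r₁ 1 + Pi.single r₂ 1 +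
    Pi.single r₃ 1 with hZ2
  have hdec : ∀ X Y Z V W : ZMod 2, (X + Y) + (Y + Z) + (X + V) + (V + W) + (W + Z) = 0 := by
    decide
  have hZ1m : Z1 ∈ cyc ends := by
    intro t
    simp only [hZ1, Pi.add_apply, add_mul, Finset.sum_add_distrib, hmem]
    rw [h₁, h₂, hp₁, hp₂, hp₃, bd_pair _ _ _ nxy, bd_pair _ _ _ nyz, bd_pair _ _ _ nxv,
      bd_pair _ _ _ nvw, bd_pair _ _ _ (Ne.symm nzw)]
    exact hdec _ _ _ _ _
  have hZ2m : Z2 ∈ cyc ends := by
    intro t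
    simp only [hZ2, Pi.add_apply, add_mul, Finset.sum_add_distrib, hmem]
    rw [h₂, h₃, hr₁, hr₂, hr₃, bd_pair _ _ _ nyz, bd_pair _ _ _ nzu, bd_pair _ _ _ nyv',
      bd_pair _ _ _ nv'w', bd_pair _ _ _ (Ne.symm nuw')]
    exact hdec _ _ _ _ _
  -- the ten edges are different
  set L : List E := [e₁, e₂, e₃, e₄, p₁, p₂, p₃, r₁, r₂, r₃] with hL
  have hLn : L.Nodup := by
    apply List.Nodup.of_map ends
    simp only [hL, List.map_cons, List.map_nil, h₁, h₂, h₃, h₄, hp₁, hp₂, hp₃, hr₁, hr₂, hr₃]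
    simp only [List.nodup_cons, List.mem_cons, List.not_mem_nil, or_false, not_or,
      not_false_eq_true, List.nodup_nil, and_true, Sym2.eq_iff, not_and]
    have h_0 := Ne.symm nxy
    have h_1 := Ne.symm nxz
    have h_2 := Ne.symm nxu
    have h_3 := Ne.symm nxv
    have h_4 := Ne.symm nxw
    have h_5 := Ne.symm nxv'
    have h_6 := Ne.symm nxw'
    have h_7 := Ne.symm nyz
    have h_8 := Ne.symm nyu
    have h_9 := Ne.symm nyv
    have h_10 := Ne.symm nyw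
    have h_11 := Ne.symm nyv'
    have h_12 := Ne.symm nyw'
    have h_13 := Ne.symm nzu
    have h_14 := Ne.symm nzv
    have h_15 := Ne.symm nzw
    have h_16 := Ne.symm nzv'
    have h_17 := Ne.symm nzw'
    have h_18 := Ne.symm nuv
    have h_19 := Ne.symm nuw
    have h_20 := Ne.symm nuv'
    have h_21 := Ne.symm nuw'
    have h_22 := Ne.symm nvw
    have h_23 := Ne.symm nvv'
    have h_24 := Ne.symm nvw'
    have h_25 := Ne.symm nwv'
    have h_26 := Ne.symm nww'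
    have h_27 := Ne.symm nv'w'
    simp_all
  have hLn' := hLn
  rw [hL] at hLn'
  simp only [List.nodup_cons, List.mem_cons, List.not_mem_nil, or_false, not_or,
    not_false_eq_true, List.nodup_nil, and_true] at hLn'
  obtain ⟨⟨a12, a13, a14, a15, a16, a17, a18, a19, a10⟩, ⟨a23, a24, a25, a26, a27, a28, a29, a20⟩,
    ⟨a34, a35, a36, a37, a38, a39, a30⟩, ⟨a45, a46, a47, a48, a49, a40⟩, _⟩ := hLn'
  have z11 : Z1 e₁ = 1 := by
    simp [hZ1, a12, a15, a16, a17]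
  have z12 : Z1 e₂ = 1 := by
    simp [hZ1, Ne.symm a12, a25, a26, a27]
  have z13 : Z1 e₃ = 0 := by
    simp [hZ1, Ne.symm a13, Ne.symm a23, a35, a36, a37]
  have z14 : Z1 e₄ = 0 := by
    simp [hZ1, Ne.symm a14, Ne.symm a24, a45, a46, a47]
  have z21 : Z2 e₁ = 0 := by
    simp [hZ2, a12, a13, a18, a19, a10]
  have z22 : Z2 e₂ = 1 := by
    simp [hZ2, a23, a28, a29, a20]
  have z23 : Z2 e₃ = 1 := by
    simp [hZ2, Ne.symm a23, a38, a39, a30]
  have z24 : Z2 e₄ = 0 := by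
    simp [hZ2, Ne.symm a24, Ne.symm a34, a48, a49, a40]
  have zout : ∀ e, e ∉ L → Z1 e = 0 ∧ Z2 e = 0 := by
    intro e he
    simp only [hL, List.mem_cons, List.not_mem_nil, or_false, not_or] at he
    obtain ⟨b1, b2, b3, b4, b5, b6, b7, b8, b9, b10⟩ := he
    constructor
    · simp [hZ1, b1, b2, b5, b6, b7]
    · simp [hZ2, b2, b3, b8, b9, b10]
  obtain ⟨q, hq⟩ := (hrep Z1).1 hZ1m
  obtain ⟨q', hq'⟩ := (hrep Z2).1 hZ2m
  set Q : J → ZMod 2 := fun j => (q j + q f) * (1 + (q' j + q' f)) with hQ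
  set ζ : E → ZMod 2 := fun e => Q (a e) + Q (b e) with hζ
  have hζm : ζ ∈ cyc ends := (hrep ζ).2 ⟨Q, fun e => rfl⟩
  have d1 : ∀ A B C A' B' C' : ZMod 2, A + B = 0 → A' + B' = 0 →
      (A + C) * (1 + (A' + C')) + (B + C) * (1 + (B' + C')) = 0 := by decide
  have d2 : ∀ B C B' C' : ZMod 2,
      (C + C) * (1 + (C' + C')) + (B + C) * (1 + (B' + C')) = (C + B) * (1 + (C' + B')) := by
    decide
  have d3 : ∀ B C B' C' : ZMod 2,
      (B + C) * (1 + (B' + C')) + (C + C) * (1 + (C' + C')) = (B + C) * (1 + (B' + C')) := by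
    decide
  have hζ0 : ∀ e, Z1 e = 0 → Z2 e = 0 → ζ e = 0 := by
    intro e h1 h2
    rw [hq e] at h1
    rw [hq' e] at h2
    exact d1 _ _ _ _ _ _ h1 h2
  have hζs : ∀ e, e ∈ star a b f → ζ e = Z1 e * (1 + Z2 e) := by
    intro e he
    rw [star, mem_filter] at he
    rw [hq e, hq' e]
    rcases he.2 with ⟨h1, _⟩ | ⟨_, h1⟩
    · simp only [hζ, hQ, h1]
      exact d2 _ _ _ _
    · simp only [hζ, hQ, h1]
      exact d3 _ _ _ _
  have c1 : ζ e₁ = 1 := by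
    rw [hζs e₁ ((hstar e₁).2 (Or.inl rfl)), z11, z21]
    decide
  have c2 : ζ e₂ = 0 := by
    rw [hζs e₂ ((hstar e₂).2 (Or.inr (Or.inl rfl))), z12, z22]
    decide
  have c3 : ζ e₃ = 0 := by
    rw [hζs e₃ ((hstar e₃).2 (Or.inr (Or.inr (Or.inl rfl)))), z13, z23]
    decide
  have c4 : ζ e₄ = 0 := by
    rw [hζs e₄ ((hstar e₄).2 (Or.inr (Or.inr (Or.inr rfl)))), z14, z24]
    decide
  have key : ∀ t, ∑ e, ζ e * bd (ends e) t = (L.map (fun e => ζ e * bd (ends e) t)).sum := by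
    intro t
    rw [← List.sum_toFinset _ hLn]
    symm
    apply Finset.sum_subset (Finset.subset_univ _)
    intro e _ he
    rw [List.mem_toFinset] at he
    obtain ⟨h1, h2⟩ := zout e he
    rw [hζ0 e h1 h2, zero_mul]
  have par : ∀ t, ζ p₁ * bd s(x, v) t + (ζ p₂ * bd s(v, w) t + (ζ p₃ * bd s(w, z) t +
      (ζ r₁ * bd s(y, v') t + (ζ r₂ * bd s(v', w') t + ζ r₃ * bd s(w', u) t)))) =
      bd s(x, y) t := by
    intro t
    have h0 : ∑ e, ζ e * bd (ends e) t = 0 := hζm t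
    rw [key t] at h0
    simp only [hL, List.map_cons, List.map_nil, List.sum_cons, List.sum_nil, h₁, h₂, h₃, h₄, hp₁,
      hp₂, hp₃, hr₁, hr₂, hr₃, c1, c2, c3, c4, one_mul, zero_mul, zero_add, add_zero] at h0
    have d4 : ∀ A B : ZMod 2, A + B = 0 → B = A := by decide
    exact d4 _ _ h0
  have hy := par y
  rw [bd_pair _ _ _ nxy, bd_pair _ _ _ nxv, bd_pair _ _ _ nvw, bd_pair _ _ _ (Ne.symm nzw),
    bd_pair _ _ _ nyv', bd_pair _ _ _ nv'w', bd_pair _ _ _ (Ne.symm nuw')] at hy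
  have hv' := par v'
  rw [bd_pair _ _ _ nxy, bd_pair _ _ _ nxv, bd_pair _ _ _ nvw, bd_pair _ _ _ (Ne.symm nzw),
    bd_pair _ _ _ nyv', bd_pair _ _ _ nv'w', bd_pair _ _ _ (Ne.symm nuw')] at hv'
  have hw' := par w'
  rw [bd_pair _ _ _ nxy, bd_pair _ _ _ nxv, bd_pair _ _ _ nvw, bd_pair _ _ _ (Ne.symm nzw),
    bd_pair _ _ _ nyv', bd_pair _ _ _ nv'w', bd_pair _ _ _ (Ne.symm nuw')] at hw'
  have hu := par u
  rw [bd_pair _ _ _ nxy, bd_pair _ _ _ nxv, bd_pair _ _ _ nvw, bd_pair _ _ _ (Ne.symm nzw),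
    bd_pair _ _ _ nyv', bd_pair _ _ _ nv'w', bd_pair _ _ _ (Ne.symm nuw')] at hu
  simp only [if_neg (Ne.symm nxy), if_neg nyz, if_neg nyv, if_neg nyw, if_neg nyv', if_neg nyw',
    if_neg nyu, if_true, add_zero, zero_add, mul_zero, mul_one] at hy
  simp only [if_neg (Ne.symm nxv'), if_neg (Ne.symm nyv'), if_neg (Ne.symm nvv'),
    if_neg (Ne.symm nwv'), if_neg (Ne.symm nzv'), if_neg nv'w', if_neg (Ne.symm nuv'),
    if_true, add_zero, zero_add, mul_zero, mul_one] at hv'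
  simp only [if_neg (Ne.symm nxw'), if_neg (Ne.symm nyw'), if_neg (Ne.symm nvw'),
    if_neg (Ne.symm nww'), if_neg (Ne.symm nzw'), if_neg (Ne.symm nv'w'), if_neg (Ne.symm nuw'),
    if_true, add_zero, zero_add, mul_zero, mul_one] at hw'
  simp only [if_neg (Ne.symm nxu), if_neg (Ne.symm nyu), if_neg nuv, if_neg nuw,
    if_neg (Ne.symm nzu), if_neg nuv', if_neg nuw', if_true, add_zero, zero_add, mul_zero,
    mul_one] at hu
  have d5 : ∀ A B C : ZMod 2, A = 1 → A + B = 0 → B + C = 0 → C = 0 → False := by decide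
  exact d5 _ _ _ hy hv' hw' hu

end Pool.Agent.H32.BD
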