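import Pool.Agent.H32.BD.Defs2
import Pool.Agent.H32.BC.CutSub

set_option autoImplicit false

/-!
Transfer lemmas.

`cyc_map`: the ends may be moved along an injective map of vertices (the condition at a vertex outside
the range is trivial).

`ml_of`: if `E, ends` represents a graph with the cut space property and every edge of `G'` on `W` is
the image (under the injective `ι : W → V`) of the ends of a chosen edge of `E`, then `G'` has the
property: choose for each `e' : G'.edgeSet` an `e : E` with `ends e = Sym2.map ι e'` (injective choice),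
`cut_sub`, `cyc_map`.

`ml_comap`: induced subgraphs. `ml_iff`: independence of the `Fintype` instance.
-/

namespace Pool.Agent.H32.BD

open Finset Pool.Agent.H32.BC

theorem cyc_map {V W E : Type} [Fintype E] (ι : W → V) (hι : Function.Injective ι)
    (ends : E → Sym2 W) : cyc (fun e => (ends e).map ι) = cyc ends := by
  classical
  have h1 : ∀ (e : Sym2 W) (w : W), bd (e.map ι) (ι w) = bd e w := by
    intro e w
    unfold bd
    have h2 : ι w ∈ e.map ι ↔ w ∈ e := by
      rw [Sym2.mem_map]
      constructor
      · rintro ⟨a, ha, haw⟩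
        rwa [← hι haw]
      · intro h
        exact ⟨w, h, rfl⟩
    by_cases h3 : w ∈ e
    · rw [if_pos h3, if_pos (h2.2 h3)]
    · rw [if_neg h3, if_neg (fun h => h3 (h2.1 h))]
  apply le_antisymm
  · intro z hz w
    have h2 := hz (ι w)
    rw [← h2]
    exact Finset.sum_congr rfl fun e _ => by rw [h1]
  · intro z hz v
    by_cases hv : ∃ w, ι w = v
    · obtain ⟨w, rfl⟩ := hv
      have h2 := hz w
      rw [← h2]
      exact Finset.sum_congr rfl fun e _ => by rw [h1]
    · refine Finset.sum_eq_zero fun e _ => ?_
      unfold bd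
      rw [if_neg, mul_zero]
      intro h
      obtain ⟨a, -, ha⟩ := Sym2.mem_map.1 h
      exact hv ⟨a, ha⟩

theorem ml_iff {V : Type} (G : SimpleGraph V) [Fintype G.edgeSet] :
    ML G ↔ IsCutSpace (cyc (V := V) (Subtype.val : G.edgeSet → Sym2 V)) := by
  rename_i inst
  constructor
  · rintro ⟨i, h⟩
    have hi : i = inst := Subsingleton.elim _ _
    subst hi
    exact h
  · intro h
    exact ⟨inst, h⟩

theorem ml_of {V W E : Type} [Finite W] [Fintype E] (ends : E → Sym2 V)
    (h : IsCutSpace (cyc ends)) (G' : SimpleGraph W) (ι : W → V) (hι : Function.Injective ι)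
    (hG' : ∀ x y, G'.Adj x y → ∃ e, ends e = s(ι x, ι y)) : ML G' := by
  classical
  have hex : ∀ e' : G'.edgeSet, ∃ e, ends e = (e' : Sym2 W).map ι := by
    rintro ⟨e', he'⟩
    induction e' using Sym2.ind with
    | _ x y =>
      obtain ⟨e, he⟩ := hG' x y he'
      exact ⟨e, he⟩
  choose g hg using hex
  have hgi : Function.Injective g := by
    intro e' e'' h
    have h1 : (e' : Sym2 W).map ι = (e'' : Sym2 W).map ι := by rw [← hg, ← hg, h]
    exact Subtype.ext (Sym2.map.injective hι h1)
  have hfin : Finite G'.edgeSet := Subtype.finite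
  let hF : Fintype G'.edgeSet := Fintype.ofFinite _
  refine ⟨hF, ?_⟩
  have h1 := cut_sub ends g hgi h
  have h2 : (fun e' => ends (g e')) = fun e' : G'.edgeSet => (Subtype.val e').map ι :=
    funext hg
  rw [h2, cyc_map ι hι] at h1
  exact h1

theorem ml_comap {V W : Type} [Finite W] (G : SimpleGraph V) (h : ML G) (ι : W ↪ V) :
    ML (G.comap ι) := by
  obtain ⟨i, h⟩ := h
  exact ml_of (Subtype.val : G.edgeSet → Sym2 V) h (G.comap ι) ι ι.injective
    (fun x y hxy => ⟨⟨s(ι x, ι y), hxy⟩, rfl⟩)

end Pool.Agent.H32.BD
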