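import Pool.Agent.H32.BD.GC
import Pool.Agent.H32.BD.GE

/-!
`identify`: if `x y z u` is a 4-cycle which is a star and there is no path `x v w z` then `G` is
3-colourable by induction.

Proof. `W = {v // v ≠ z}`, `H.Adj s t ↔ s ≠ t ∧ ∃ p q, G.Adj p q ∧ mrg x z p = s ∧ mrg x z q = t`. There is no
edge `s(x, z)` (triangle `x y z`); the vertices `x, y, z, u` are different. `H` has the property `ML` by
`cut_merge` and `ml_of` (`ends e = e.map (mrg x z)`, `ι = Subtype.val`). `H` is triangle-free: in a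
triangle of `H` replace each edge by an edge of `G`; if `x` is not in it, it is a triangle of `G`; if it
is `x, s, t` then `s ~ t` in `G`, `s` is adjacent to `x` or `z`, `t` to `x` or `z`: a triangle of `G` or a
path `x s t z` / `x t s z`, excluded by `hno`. `H` has fewer vertices, so a colouring `C`; colour `G` by
`v ↦ C (mrg x z v)` (`mrg x z v ≠ z`); proper since `mrg x z p ≠ mrg x z q` for adjacent `p, q`
(otherwise `{p, q} = {x, z}`).
-/

set_option autoImplicit false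

namespace Pool.Agent.H32.BD

open Finset Pool.Agent.H32.BC

private theorem GF2_mrg {V : Type} (x z v : V) :
    (v = z ∧ mrg x z v = x) ∨ (v ≠ z ∧ mrg x z v = v) := by
  classical
  unfold mrg
  by_cases h : v = z
  · exact Or.inl ⟨h, if_pos h⟩
  · exact Or.inr ⟨h, if_neg h⟩

theorem identify {V : Type} [Fintype V] [DecidableEq V] (G : SimpleGraph V) [Fintype G.edgeSet]
    (htf : TF G)
    (ih : ∀ (W : Type) [Fintype W], Fintype.card W < Fintype.card V → ∀ H : SimpleGraph W,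
      ML H → TF H → H.Colorable 3)
    (J : Type) [Finite J] (a b : G.edgeSet → J) (f : J) (x y z u : V) (e₁ e₂ e₃ e₄ : G.edgeSet)
    (hrep : Rep (cyc (V := V) (Subtype.val : G.edgeSet → Sym2 V)) a b)
    (h₁ : (e₁ : Sym2 V) = s(x, y)) (h₂ : (e₂ : Sym2 V) = s(y, z)) (h₃ : (e₃ : Sym2 V) = s(z, u))
    (h₄ : (e₄ : Sym2 V) = s(u, x)) (hxz : x ≠ z) (hyu : y ≠ u)
    (hstar : ∀ e, e ∈ star a b f ↔ (e = e₁ ∨ e = e₂ ∨ e = e₃ ∨ e = e₄))
    (hno : ∀ v w, G.Adj x v → G.Adj v w → ¬ G.Adj w z) : G.Colorable 3 := by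
  have axy : G.Adj x y := by
    have := e₁.2
    rwa [h₁, SimpleGraph.mem_edgeSet] at this
  have ayz : G.Adj y z := by
    have := e₂.2
    rwa [h₂, SimpleGraph.mem_edgeSet] at this
  have azu : G.Adj z u := by
    have := e₃.2
    rwa [h₃, SimpleGraph.mem_edgeSet] at this
  have aux : G.Adj u x := by
    have := e₄.2
    rwa [h₄, SimpleGraph.mem_edgeSet] at this
  have nxz : ¬ G.Adj x z := htf x y z axy ayz
  have hcut := cut_merge (Subtype.val : G.edgeSet → Sym2 V) x y z u e₁ e₂ e₃ e₄ h₁ h₂ h₃ h₄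
    axy.ne ayz.ne azu.ne aux.ne hxz hyu (by
      intro e he
      have := e.2
      rw [he, SimpleGraph.mem_edgeSet] at this
      exact nxz this) a b hrep f hstar
  let H : SimpleGraph {v : V // v ≠ z} :=
    { Adj := fun s t => s ≠ t ∧ ∃ p q, G.Adj p q ∧ mrg x z p = s.1 ∧ mrg x z q = t.1
      symm := ⟨fun s t h => ⟨h.1.symm, by
        obtain ⟨_, p, q, hpq, hp, hq⟩ := h
        exact ⟨q, p, hpq.symm, hq, hp⟩⟩⟩
      loopless := ⟨fun s h => h.1 rfl⟩ }
  have hML : ML H := by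
    refine ml_of (fun e : G.edgeSet => (e : Sym2 V).map (mrg x z)) hcut H Subtype.val
      Subtype.val_injective ?_
    rintro s t ⟨_, p, q, hpq, hp, hq⟩
    refine ⟨⟨s(p, q), hpq⟩, ?_⟩
    show s(mrg x z p, mrg x z q) = s(s.1, t.1)
    rw [hp, hq]
  have hN : ∀ s t : {v : V // v ≠ z}, H.Adj s t →
      G.Adj s.1 t.1 ∨ (s.1 = x ∧ G.Adj z t.1) ∨ (t.1 = x ∧ G.Adj s.1 z) := by
    rintro s t ⟨_, p, q, hpq, hp, hq⟩
    rcases GF2_mrg x z p with ⟨hp1, hp2⟩ | ⟨_, hp2⟩ <;> rcases GF2_mrg x z q with ⟨hq1, hq2⟩ | ⟨_, hq2⟩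
    · rw [hp1, hq1] at hpq
      exact (G.loopless.irrefl _ hpq).elim
    · right; left
      refine ⟨by rw [← hp, hp2], ?_⟩
      rw [← hq, hq2, ← hp1]
      exact hpq
    · right; right
      refine ⟨by rw [← hq, hq2], ?_⟩
      rw [← hp, hp2, ← hq1]
      exact hpq
    · left
      rw [← hp, ← hq, hp2, hq2]
      exact hpq
  have tri : ∀ s t : V, G.Adj s t → (G.Adj x s ∨ G.Adj z s) → (G.Adj x t ∨ G.Adj z t) → False := by
    rintro s t hst (h1 | h1) (h2 | h2)
    · exact htf x s t h1 hst h2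
    · exact hno s t h1 hst h2.symm
    · exact hno t s h2 hst.symm h1.symm
    · exact htf z s t h1 hst h2
  have hx1 : ∀ s t : {v : V // v ≠ z}, H.Adj s t → s.1 = x → G.Adj x t.1 ∨ G.Adj z t.1 := by
    intro s t hst hs
    rcases hN s t hst with h | ⟨_, h⟩ | ⟨h, _⟩
    · left
      rw [← hs]
      exact h
    · exact Or.inr h
    · exact (hst.1 (Subtype.ext (hs.trans h.symm))).elim
  have hx0 : ∀ s t : {v : V // v ≠ z}, H.Adj s t → s.1 ≠ x → t.1 ≠ x → G.Adj s.1 t.1 := by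
    intro s t hst hs ht
    rcases hN s t hst with h | ⟨h, _⟩ | ⟨h, _⟩
    · exact h
    · exact (hs h).elim
    · exact (ht h).elim
  have hne : ∀ s t : {v : V // v ≠ z}, H.Adj s t → s.1 = x → t.1 ≠ x := by
    intro s t hst hs ht
    exact hst.1 (Subtype.ext (hs.trans ht.symm))
  have hTF : TF H := by
    intro s t r hst htr hsr
    by_cases h1 : s.1 = x
    · exact tri t.1 r.1 (hx0 t r htr (hne s t hst h1) (hne s r hsr h1)) (hx1 s t hst h1)
        (hx1 s r hsr h1)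
    · by_cases h2 : t.1 = x
      · exact tri s.1 r.1 (hx0 s r hsr h1 (hne t r htr h2)) (hx1 t s hst.symm h2)
          (hx1 t r htr h2)
      · by_cases h3 : r.1 = x
        · exact tri s.1 t.1 (hx0 s t hst h1 h2) (hx1 r s hsr.symm h3) (hx1 r t htr.symm h3)
        · exact htf s.1 t.1 r.1 (hx0 s t hst h1 h2) (hx0 t r htr h2 h3) (hx0 s r hsr h1 h3)
  have hcard : Fintype.card {v : V // v ≠ z} < Fintype.card V :=
    Fintype.card_subtype_lt (x := z) (by simp)
  obtain ⟨C⟩ := ih {v : V // v ≠ z} hcard H hML hTF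
  have hmz : ∀ v, mrg x z v ≠ z := by
    intro v
    rcases GF2_mrg x z v with ⟨_, h⟩ | ⟨h1, h⟩
    · rw [h]
      exact hxz
    · rw [h]
      exact h1
  refine ⟨SimpleGraph.Coloring.mk (fun v => C ⟨mrg x z v, hmz v⟩) ?_⟩
  intro p q hpq
  apply C.valid
  refine ⟨?_, p, q, hpq, rfl, rfl⟩
  intro h
  have h' : mrg x z p = mrg x z q := congrArg Subtype.val h
  rcases GF2_mrg x z p with ⟨hp1, hp2⟩ | ⟨_, hp2⟩ <;> rcases GF2_mrg x z q with ⟨hq1, hq2⟩ | ⟨_, hq2⟩
  · rw [hp1, hq1] at hpq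
    exact G.loopless.irrefl _ hpq
  · rw [hp2, hq2] at h'
    rw [hp1, ← h'] at hpq
    exact nxz hpq.symm
  · rw [hp2, hq2] at h'
    rw [hq1, h'] at hpq
    exact nxz hpq
  · rw [hp2, hq2] at h'
    exact hpq.ne h'

end Pool.Agent.H32.BD
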