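import Pool.Agent.H32.BD.GF1
import Pool.Agent.H32.BD.GF2
import Pool.Agent.H32.BD.GD
import Pool.Agent.H32.BC.CutPlanar

set_option autoImplicit false

/-!
Groetzsch's theorem: triangle-free graphs with the cut space property are 3-colourable.

`groetzsch_ml`: induction on `n` (strong induction on the number of vertices). Suppose `G` is not
colourable. `Crit G`: for `R ≠ univ` the graph `G.comap` on `{v // v ∈ R}` has fewer vertices, is
triangle-free and has `ML` (`ml_comap`), so it is colourable, which gives `ProperOn G R φ`. Take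
`face4`. If there is no path `x v w z`: `identify`. If there is no path `y v' w' u`: `identify` for
`(y, z, u, x)`, edges `e₂ e₃ e₄ e₁`. Otherwise all of `x, y, z, u, v, w, v', w'` are different: each
coincidence gives a triangle (`v = y`: `y ~ w ~ z ~ y`; `v = u`: `u ~ w ~ z ~ u`; `v = z`: `x ~ z`, triangle
with `y`; `w = y`: `x ~ v ~ y ~ x`; `w = u`; `w = x`; the same for `v', w'`; `v = v'`: `x ~ v ~ y ~ x`; `v = w'`:
`x ~ v ~ u ~ x`; `w = v'`: `z ~ w ~ y ~ z`; `w = w'`: `z ~ w ~ u ~ z`), and `crossing` gives a contradiction.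
-/

namespace Pool.Agent.H32.BD

open Finset Pool.Agent.H32.BC Pool.Agent.H29.Tor

theorem groetzsch_ml (n : ℕ) : ∀ (V : Type) [Fintype V], Fintype.card V < n →
    ∀ G : SimpleGraph V, ML G → TF G → G.Colorable 3 := by
  induction n with
  | zero =>
    intro V _ h
    exact absurd h (Nat.not_lt_zero _)
  | succ n ih =>
    intro V _ hV G hML htf
    classical
    by_contra hnc
    have ih' : ∀ (W : Type) [Fintype W], Fintype.card W < Fintype.card V →
        ∀ H : SimpleGraph W, ML H → TF H → H.Colorable 3 := fun W _ hW H h1 h2 =>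
      ih W (lt_of_lt_of_le hW (Nat.lt_succ_iff.1 hV)) H h1 h2
    have hF : Fintype G.edgeSet := Fintype.ofFinite _
    have hcr : Crit G := by
      refine ⟨hnc, fun R hR => ?_⟩
      have hcard : Fintype.card {v // v ∈ R} < Fintype.card V := by
        rw [Fintype.card_coe]
        exact Finset.card_lt_card (Finset.ssubset_univ_iff.2 hR)
      let f : {v // v ∈ R} ↪ V := Function.Embedding.subtype (fun v => v ∈ R)
      obtain ⟨C⟩ := ih' {v // v ∈ R} hcard (G.comap f) (ml_comap G hML f)
        (fun a b c h1 h2 h3 => htf a b c h1 h2 h3)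
      refine ⟨fun v => if hv : v ∈ R then C ⟨v, hv⟩ else 0, ?_⟩
      intro p hp q hq hpq
      simp only [dif_pos hp, dif_pos hq]
      exact C.valid (show (G.comap f).Adj ⟨p, hp⟩ ⟨q, hq⟩ from hpq)
    obtain ⟨J, hJ, a, b, f, x, y, z, u, e₁, e₂, e₃, e₄, hrep, h₁, h₂, h₃, h₄, hxz, hyu,
      hstar⟩ := face4 G hML htf hcr
    have hadj : ∀ (e : G.edgeSet) (p q : V), (e : Sym2 V) = s(p, q) → G.Adj p q := by
      intro e p q h
      have h1 := e.2
      rw [h] at h1
      exact h1
    have axy := hadj _ _ _ h₁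
    have ayz := hadj _ _ _ h₂
    have azu := hadj _ _ _ h₃
    have aux := hadj _ _ _ h₄
    by_cases hno : ∀ v w, G.Adj x v → G.Adj v w → ¬ G.Adj w z
    · exact hnc (identify G htf ih' J a b f x y z u e₁ e₂ e₃ e₄ hrep h₁ h₂ h₃ h₄ hxz hyu
        hstar hno)
    by_cases hno' : ∀ v w, G.Adj y v → G.Adj v w → ¬ G.Adj w u
    · refine hnc (identify G htf ih' J a b f y z u x e₂ e₃ e₄ e₁ hrep h₂ h₃ h₄ h₁ hyu
        (Ne.symm hxz) ?_ hno')
      intro e
      rw [hstar e]
      tauto
    push Not at hno hno'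
    obtain ⟨v, w, axv, avw, awz⟩ := hno
    obtain ⟨v', w', ayv', avw', awu'⟩ := hno'
    have T : ∀ p q r, G.Adj p q → G.Adj q r → G.Adj p r → False := fun p q r h1 h2 h3 =>
      htf p q r h1 h2 h3
    have nxy : ¬ x = y := axy.ne
    have nxu : ¬ x = u := aux.ne'
    have nxv : ¬ x = v := axv.ne
    have nxw : ¬ x = w := fun h => by
      subst h
      exact T _ _ _ axy ayz awz
    have nxv' : ¬ x = v' := fun h => by
      subst h
      exact T _ _ _ avw' awu' aux.symm
    have nxw' : ¬ x = w' := fun h => by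
      subst h
      exact T _ _ _ ayv' avw' axy.symm
    have nyz : ¬ y = z := ayz.ne
    have nyv : ¬ y = v := fun h => by
      subst h
      exact T _ _ _ avw awz ayz
    have nyw : ¬ y = w := fun h => by
      subst h
      exact T _ _ _ axv avw axy
    have nyv' : ¬ y = v' := ayv'.ne
    have nyw' : ¬ y = w' := fun h => by
      subst h
      exact T _ _ _ axy awu' aux.symm
    have nzu : ¬ z = u := azu.ne
    have nzv : ¬ z = v := fun h => by
      subst h
      exact T _ _ _ axy ayz axv
    have nzw : ¬ z = w := awz.ne'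
    have nzv' : ¬ z = v' := fun h => by
      subst h
      exact T _ _ _ avw' awu' azu
    have nzw' : ¬ z = w' := fun h => by
      subst h
      exact T _ _ _ ayv' avw' ayz
    have nuv : ¬ u = v := fun h => by
      subst h
      exact T _ _ _ avw awz azu.symm
    have nuw : ¬ u = w := fun h => by
      subst h
      exact T _ _ _ axv avw aux.symm
    have nuv' : ¬ u = v' := fun h => by
      subst h
      exact T _ _ _ axy ayv' aux.symm
    have nuw' : ¬ u = w' := awu'.ne'
    have nvw : ¬ v = w := avw.ne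
    have nvv' : ¬ v = v' := fun h => by
      subst h
      exact T _ _ _ axy ayv' axv
    have nvw' : ¬ v = w' := fun h => by
      subst h
      exact T _ _ _ axv awu' aux.symm
    have nwv' : ¬ w = v' := fun h => by
      subst h
      exact T _ _ _ ayv' awz ayz
    have nww' : ¬ w = w' := fun h => by
      subst h
      exact T _ _ _ awz azu awu'
    have nv'w' : ¬ v' = w' := avw'.ne
    refine crossing (Subtype.val : G.edgeSet → Sym2 V) x y z u v w v' w' e₁ e₂ e₃ e₄
      ⟨s(x, v), axv⟩ ⟨s(v, w), avw⟩ ⟨s(w, z), awz⟩ ⟨s(y, v'), ayv'⟩ ⟨s(v', w'), avw'⟩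
      ⟨s(w', u), awu'⟩ h₁ h₂ h₃ h₄ rfl rfl rfl rfl rfl rfl ?_ a b hrep f hstar
    simp only [List.nodup_cons, List.mem_cons, List.not_mem_nil, or_false, not_or,
      not_false_eq_true, List.nodup_nil, and_true]
    exact ⟨⟨nxy, hxz, nxu, nxv, nxw, nxv', nxw'⟩, ⟨nyz, hyu, nyv, nyw, nyv', nyw'⟩,
      ⟨nzu, nzv, nzw, nzv', nzw'⟩, ⟨nuv, nuw, nuv', nuw'⟩, ⟨nvw, nvv', nvw'⟩, ⟨nwv', nww'⟩,
      nv'w'⟩

/-- Groetzsch's theorem -/
theorem groetzsch {V : Type} [Fintype V] (G : SimpleGraph V) (hG : IsPlanar G)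
    (h3 : G.CliqueFree 3) : G.Colorable 3 := by
  classical
  have : Fintype G.edgeSet := Fintype.ofFinite _
  refine groetzsch_ml (Fintype.card V + 1) V (Nat.lt_succ_self _) G
    ((ml_iff G).2 (planar_cut G hG)) ?_
  intro a b c hab hbc hac
  exact h3 {a, b, c} (SimpleGraph.is3Clique_triple_iff.2 ⟨hab, hac, hbc⟩)

end Pool.Agent.H32.BD
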