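import Pool.Agent.H32.BC.Defs

set_option autoImplicit false

/-!
Graphs whose cycle space modulo 2 is a cut space (MacLane's planar graphs).
-/

namespace Pool.Agent.H32.BD

open Finset Pool.Agent.H32.BC

/-- `a, b : E → J` represent `Z` as the space of differences of potentials `q : J → ZMod 2` -/
def Rep {E J : Type} (Z : Submodule (ZMod 2) (E → ZMod 2)) (a b : E → J) : Prop :=
  ∀ z : E → ZMod 2, z ∈ Z ↔ ∃ q : J → ZMod 2, ∀ e, z e = q (a e) + q (b e)

/-- no triangles -/
def TF {V : Type} (G : SimpleGraph V) : Prop := ∀ a b c, G.Adj a b → G.Adj b c → ¬ G.Adj a c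

open Classical in
/-- the edges exactly one of whose two values `a e`, `b e` is `f` -/
noncomputable def star {E J : Type} [Fintype E] (a b : E → J) (f : J) : Finset E :=
  univ.filter (fun e => (a e = f ∧ b e ≠ f) ∨ (a e ≠ f ∧ b e = f))

/-- the cycle space of `G` is a cut space -/
def ML {V : Type} (G : SimpleGraph V) : Prop :=
  ∃ (_ : Fintype G.edgeSet), IsCutSpace (cyc (V := V) (Subtype.val : G.edgeSet → Sym2 V))

/-- replace `z` by `x` -/
noncomputable def mrg {V : Type} (x z : V) : V → V := by
  classical
  exact fun v => if v = z then x else v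

end Pool.Agent.H32.BD
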