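import Pool.Agent.H32.BD.Defs2
import Pool.Agent.H32.BC.Even4

set_option autoImplicit false

/-!
A nonempty even edge set with at most four edges in a triangle-free simple graph is a 4-cycle.

Proof. With `exists_other` (see `even5`): `e₁ = s(x, y)` in `F`; at `y` another `e₂ = s(y, w)`, `w ≠ x`;
at `w` another `e₃ = s(w, u)`, `u ≠ y`, and `u ≠ x` (no triangle); at `u` another `e₄ = s(u, t)`, `t ≠ w`,
`t ≠ y` (no triangle); at `x` another `e₅ = s(x, r)`, `r ≠ y`. `e₁, e₂, e₃, e₄` are different, so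
`F = {e₁, e₂, e₃, e₄}` and `e₅` is one of them; it contains `x`, so it is `e₄` (`e₁` excluded,
`x ∉ {y, w}`, `x ∉ {w, u}`), so `t = x`.
-/

namespace Pool.Agent.H32.BD

open Finset Pool.Agent.H32.BC

theorem four_cycle {V E : Type} [Fintype E] (ends : E → Sym2 V)
    (hinj : Function.Injective ends) (hnd : ∀ e, ¬ (ends e).IsDiag)
    (htf : ∀ e₁ e₂ e₃ x y w, ends e₁ = s(x, y) → ends e₂ = s(y, w) → ends e₃ = s(w, x) → False)
    (ζ : E → ZMod 2) (hζ : ζ ∈ cyc ends) (hζ0 : (supp ζ).Nonempty) (h4 : (supp ζ).card < 5) :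
    ∃ (x y z u : V) (e₁ e₂ e₃ e₄ : E), ends e₁ = s(x, y) ∧ ends e₂ = s(y, z) ∧
      ends e₃ = s(z, u) ∧ ends e₄ = s(u, x) ∧ x ≠ z ∧ y ≠ u ∧ ∀ e, ζ e ≠ 0 ↔
        (e = e₁ ∨ e = e₂ ∨ e = e₃ ∨ e = e₄) := by
  classical
  have hmem : ∀ e, e ∈ supp ζ ↔ ζ e ≠ 0 := by
    intro e
    unfold supp
    rw [mem_filter]
    exact ⟨fun h => h.2, fun h => ⟨mem_univ _, h⟩⟩
  have hne : ∀ e a b, ends e = s(a, b) → a ≠ b := by
    intro e a b h hab
    apply hnd e
    rw [h, hab]
    exact Sym2.mk_isDiag_iff.2 rfl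
  obtain ⟨e1, he1⟩ := hζ0
  have hz1 := (hmem e1).1 he1
  obtain ⟨x, y, h1⟩ : ∃ x y, ends e1 = s(x, y) := by
    generalize ends e1 = t
    induction t using Sym2.ind with
    | _ a b => exact ⟨a, b, rfl⟩
  have hxy := hne _ _ _ h1
  obtain ⟨e2, h21, hz2, hy2⟩ := exists_other ends ζ hζ e1 hz1 y (h1 ▸ Sym2.mem_mk_right x y)
  obtain ⟨w, h2⟩ := Sym2.mem_iff_exists.1 hy2
  have hyw := hne _ _ _ h2
  have hwx : w ≠ x := by
    intro h
    apply h21
    apply hinj
    rw [h2, h1, h, Sym2.eq_swap]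
  obtain ⟨e3, h32, hz3, hw3⟩ := exists_other ends ζ hζ e2 hz2 w (h2 ▸ Sym2.mem_mk_right y w)
  obtain ⟨u, h3⟩ := Sym2.mem_iff_exists.1 hw3
  have hwu := hne _ _ _ h3
  have huy : u ≠ y := by
    intro h
    apply h32
    apply hinj
    rw [h3, h2, h, Sym2.eq_swap]
  have hux : u ≠ x := by
    intro h
    rw [h] at h3
    exact htf e1 e2 e3 x y w h1 h2 h3
  obtain ⟨e4, h43, hz4, hu4⟩ := exists_other ends ζ hζ e3 hz3 u (h3 ▸ Sym2.mem_mk_right w u)
  obtain ⟨t, h4'⟩ := Sym2.mem_iff_exists.1 hu4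
  obtain ⟨e5, h51, hz5, hx5⟩ := exists_other ends ζ hζ e1 hz1 x (h1 ▸ Sym2.mem_mk_left x y)
  have h31 : e3 ≠ e1 := by
    intro h
    rw [h, h1] at hw3
    rcases Sym2.mem_iff.1 hw3 with h | h
    · exact hwx h
    · exact hyw h.symm
  have h41 : e4 ≠ e1 := by
    intro h
    rw [h, h1] at hu4
    rcases Sym2.mem_iff.1 hu4 with h | h
    · exact hux h
    · exact huy h
  have h42 : e4 ≠ e2 := by
    intro h
    rw [h, h2] at hu4
    rcases Sym2.mem_iff.1 hu4 with h | h
    · exact huy h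
    · exact hwu h.symm
  have hsub : ({e1, e2, e3, e4} : Finset E) ⊆ supp ζ := by
    intro a ha
    rw [hmem]
    simp only [mem_insert, mem_singleton] at ha
    rcases ha with h | h | h | h <;> rw [h] <;> assumption
  have hcard : ({e1, e2, e3, e4} : Finset E).card = 4 := by
    rw [card_insert_of_notMem, card_insert_of_notMem, card_insert_of_notMem, card_singleton]
    · rw [mem_singleton]
      exact h43.symm
    · simp only [mem_insert, mem_singleton]
      rintro (h | h)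
      · exact h32 h.symm
      · exact h42 h.symm
    · simp only [mem_insert, mem_singleton]
      rintro (h | h | h)
      · exact h21 h.symm
      · exact h31 h.symm
      · exact h41 h.symm
  have heq : ({e1, e2, e3, e4} : Finset E) = supp ζ :=
    eq_of_subset_of_card_le hsub (by omega)
  have hiff : ∀ e, ζ e ≠ 0 ↔ (e = e1 ∨ e = e2 ∨ e = e3 ∨ e = e4) := by
    intro e
    rw [← hmem, ← heq]
    simp only [mem_insert, mem_singleton]
  have htx : t = x := by
    rcases (hiff e5).1 hz5 with h | h | h | h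
    · exact absurd h h51
    · rw [h, h2] at hx5
      rcases Sym2.mem_iff.1 hx5 with h | h
      · exact absurd h hxy
      · exact absurd h.symm hwx
    · rw [h, h3] at hx5
      rcases Sym2.mem_iff.1 hx5 with h | h
      · exact absurd h.symm hwx
      · exact absurd h.symm hux
    · rw [h, h4'] at hx5
      rcases Sym2.mem_iff.1 hx5 with h | h
      · exact absurd h.symm hux
      · exact h.symm
  rw [htx] at h4'
  exact ⟨x, y, w, u, e1, e2, e3, e4, h1, h2, h3, h4', hwx.symm, huy.symm, hiff⟩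

end Pool.Agent.H32.BD
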