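import Pool.Agent.H32.BD.Defs2

set_option autoImplicit false

/-!
Identification of two opposite vertices of a face of length four keeps the cut space property.

Proof. Let `f` be the element of `J` with star the 4-cycle `e₁ e₂ e₃ e₄` (`x y z u`). New
representation: `J' = Option J`; `a' e = none` if `e ∈ {e₃, e₄}` and `a e = f`, otherwise `some (a e)`;
the same for `b'`. For `q' : Option J → ZMod 2` put `q j = q' (some j)`, `δ = q' none + q' (some f)`. Since
exactly one of `a e`, `b e` is `f` for `e = e₃, e₄`,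
`q' (a' e) + q' (b' e) = q (a e) + q (b e) + δ [e = e₃ or e = e₄]`. So the new cut space is
`cyc ends + span {1_{e₃, e₄}}`. On the other side `bd (map (mrg x z) (ends e))` is `bd (ends e)` at
`v ≠ x, z`, it is `bd (ends e) x + bd (ends e) z` at `x` (no edge `s(x, z)`), and 0 at `z`. So `ζ` is in
the new cycle space iff it is even at all `v ≠ x, z` and its parities at `x` and at `z` are equal (`δ`,
say); then `ζ + δ 1_{e₃, e₄}` is in `cyc ends` (parities: at `z` and at `x` one edge of `e₃, e₄` each, at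
`u` both), and conversely.
-/

namespace Pool.Agent.H32.BD

open Finset Pool.Agent.H32.BC

theorem cut_merge {V E J : Type} [Fintype E] [Finite J] (ends : E → Sym2 V) (x y z u : V)
    (e₁ e₂ e₃ e₄ : E) (h₁ : ends e₁ = s(x, y)) (h₂ : ends e₂ = s(y, z)) (h₃ : ends e₃ = s(z, u))
    (h₄ : ends e₄ = s(u, x)) (hxy : x ≠ y) (hyz : y ≠ z) (hzu : z ≠ u) (hux : u ≠ x)
    (hxz : x ≠ z) (hyu : y ≠ u) (hnxz : ∀ e, ends e ≠ s(x, z)) (a b : E → J)
    (hrep : Rep (cyc ends) a b) (f : J)
    (hstar : ∀ e, e ∈ star a b f ↔ (e = e₁ ∨ e = e₂ ∨ e = e₃ ∨ e = e₄)) :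
    IsCutSpace (cyc (fun e => (ends e).map (mrg x z))) := by
  classical
  have h2 : ∀ t : ZMod 2, t + t = 0 := by decide
  have h34 : e₃ ≠ e₄ := by
    rintro rfl
    rw [h₃] at h₄
    rcases Sym2.eq_iff.1 h₄ with ⟨h, _⟩ | ⟨h, _⟩
    · exact hzu h
    · exact hxz h.symm
  obtain ⟨I, hI⟩ : ∃ I : E → ZMod 2, I = fun e =>
      (if e = e₃ then 1 else 0) + (if e = e₄ then 1 else 0) := ⟨_, rfl⟩
  obtain ⟨par, hpar⟩ : ∃ par : (E → ZMod 2) → V → ZMod 2,
      par = fun ζ v => ∑ e, ζ e * bd (ends e) v := ⟨_, rfl⟩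
  have hparI : ∀ v, par I v = bd (s(z, u)) v + bd (s(u, x)) v := by
    intro v
    rw [hpar, hI]
    simp only [add_mul, ite_mul, one_mul, zero_mul, Finset.sum_add_distrib,
      Finset.sum_ite_eq', Finset.mem_univ, if_true]
    rw [h₃, h₄]
  have hIx : par I x = 1 := by
    rw [hparI]
    unfold bd
    rw [if_neg, if_pos (Sym2.mem_mk_right u x), zero_add]
    rw [Sym2.mem_iff]
    rintro (h | h)
    · exact hxz h
    · exact hux h.symm
  have hIz : par I z = 1 := by
    rw [hparI]
    unfold bd
    rw [if_pos (Sym2.mem_mk_left z u), if_neg, add_zero]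
    rw [Sym2.mem_iff]
    rintro (h | h)
    · exact hzu h
    · exact hxz h.symm
  have hIv : ∀ v, v ≠ x → v ≠ z → par I v = 0 := by
    intro v hvx hvz
    rw [hparI]
    unfold bd
    by_cases hvu : v = u
    · rw [hvu, if_pos (Sym2.mem_mk_right z u), if_pos (Sym2.mem_mk_left u x)]
      exact h2 1
    · rw [if_neg, if_neg, zero_add]
      · rw [Sym2.mem_iff]
        rintro (h | h)
        · exact hvu h
        · exact hvx h
      · rw [Sym2.mem_iff]
        rintro (h | h)
        · exact hvz h
        · exact hvu h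
  have hpadd : ∀ (ζ : E → ZMod 2) (δ : ZMod 2) (v : V),
      par (fun e => ζ e + δ * I e) v = par ζ v + δ * par I v := by
    intro ζ δ v
    rw [hpar]
    simp only [add_mul, Finset.sum_add_distrib, Finset.mul_sum, mul_assoc]
  have hbz : ∀ e, bd ((ends e).map (mrg x z)) z = 0 := by
    intro e
    unfold bd
    rw [if_neg]
    rw [Sym2.mem_map]
    rintro ⟨w, _, h⟩
    unfold mrg at h
    split_ifs at h with h1
    · exact hxz h
    · exact h1 h
  have hbx : ∀ e, bd ((ends e).map (mrg x z)) x = bd (ends e) x + bd (ends e) z := by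
    intro e
    have hiff : x ∈ (ends e).map (mrg x z) ↔ x ∈ ends e ∨ z ∈ ends e := by
      rw [Sym2.mem_map]
      constructor
      · rintro ⟨w, hw, h⟩
        unfold mrg at h
        split_ifs at h with h1
        · exact Or.inr (h1 ▸ hw)
        · exact Or.inl (h ▸ hw)
      · rintro (h | h)
        · refine ⟨x, h, ?_⟩
          unfold mrg
          rw [if_neg hxz]
        · refine ⟨z, h, ?_⟩
          unfold mrg
          rw [if_pos rfl]
    have hnot : ¬ (x ∈ ends e ∧ z ∈ ends e) := fun h =>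
      hnxz e ((Sym2.mem_and_mem_iff hxz).1 h)
    unfold bd
    by_cases h1 : x ∈ ends e
    · have h3 : z ∉ ends e := fun h => hnot ⟨h1, h⟩
      rw [if_pos (hiff.2 (Or.inl h1)), if_pos h1, if_neg h3, add_zero]
    · by_cases h3 : z ∈ ends e
      · rw [if_pos (hiff.2 (Or.inr h3)), if_neg h1, if_pos h3, zero_add]
      · rw [if_neg (fun h => (hiff.1 h).elim h1 h3), if_neg h1, if_neg h3, zero_add]
  have hbv : ∀ e v, v ≠ x → v ≠ z → bd ((ends e).map (mrg x z)) v = bd (ends e) v := by
    intro e v hvx hvz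
    have hiff : v ∈ (ends e).map (mrg x z) ↔ v ∈ ends e := by
      rw [Sym2.mem_map]
      constructor
      · rintro ⟨w, hw, h⟩
        unfold mrg at h
        split_ifs at h with h1
        · exact absurd h.symm hvx
        · exact h ▸ hw
      · intro h
        refine ⟨v, h, ?_⟩
        unfold mrg
        rw [if_neg hvz]
    unfold bd
    by_cases h1 : v ∈ ends e
    · rw [if_pos (hiff.2 h1), if_pos h1]
    · rw [if_neg (fun h => h1 (hiff.1 h)), if_neg h1]
  have hmem : ∀ ζ : E → ZMod 2, ζ ∈ cyc (fun e => (ends e).map (mrg x z)) ↔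
      (∀ v, v ≠ x → v ≠ z → par ζ v = 0) ∧ par ζ x + par ζ z = 0 := by
    intro ζ
    have h0 : ζ ∈ cyc (fun e => (ends e).map (mrg x z)) ↔
      ∀ v, ∑ e, ζ e * bd ((ends e).map (mrg x z)) v = 0 := Iff.rfl
    have hx' : ∑ e, ζ e * bd ((ends e).map (mrg x z)) x = par ζ x + par ζ z := by
      rw [hpar]
      simp only [hbx, mul_add, Finset.sum_add_distrib]
    have hv' : ∀ v, v ≠ x → v ≠ z → ∑ e, ζ e * bd ((ends e).map (mrg x z)) v = par ζ v := by
      intro v hvx hvz
      rw [hpar]
      exact Finset.sum_congr rfl fun e _ => by rw [hbv e v hvx hvz]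
    rw [h0]
    constructor
    · intro h
      refine ⟨fun v hvx hvz => ?_, ?_⟩
      · rw [← hv' v hvx hvz]
        exact h v
      · rw [← hx']
        exact h x
    · rintro ⟨h3, h4⟩ v
      by_cases hvx : v = x
      · rw [hvx, hx']
        exact h4
      · by_cases hvz : v = z
        · rw [hvz]
          exact Finset.sum_eq_zero fun e _ => by rw [hbz e, mul_zero]
        · rw [hv' v hvx hvz]
          exact h3 v hvx hvz
  have hcyc : ∀ ζ : E → ZMod 2, ζ ∈ cyc (fun e => (ends e).map (mrg x z)) ↔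
      ∃ δ : ZMod 2, (fun e => ζ e + δ * I e) ∈ cyc ends := by
    intro ζ
    rw [hmem]
    have h0 : ∀ δ : ZMod 2, (fun e => ζ e + δ * I e) ∈ cyc ends ↔
        ∀ v, par ζ v + δ * par I v = 0 := by
      intro δ
      have h1 : (fun e => ζ e + δ * I e) ∈ cyc ends ↔
        ∀ v, par (fun e => ζ e + δ * I e) v = 0 := by
        rw [hpar]
        exact Iff.rfl
      rw [h1]
      exact forall_congr' fun v => by rw [hpadd]
    constructor
    · rintro ⟨h3, h4⟩
      refine ⟨par ζ x, (h0 _).2 fun v => ?_⟩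
      by_cases hvx : v = x
      · rw [hvx, hIx, mul_one]
        exact h2 _
      · by_cases hvz : v = z
        · rw [hvz, hIz, mul_one, add_comm]
          exact h4
        · rw [hIv v hvx hvz, mul_zero, add_zero]
          exact h3 v hvx hvz
    · rintro ⟨δ, hδ⟩
      rw [h0] at hδ
      refine ⟨fun v hvx hvz => ?_, ?_⟩
      · have := hδ v
        rw [hIv v hvx hvz, mul_zero, add_zero] at this
        exact this
      · have h5 := hδ x
        have h6 := hδ z
        rw [hIx, mul_one] at h5
        rw [hIz, mul_one] at h6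
        have h7 := h2 δ
        linear_combination h5 + h6 - h7
  have hIe : ∀ e, e ≠ e₃ → e ≠ e₄ → I e = 0 := by
    intro e h3 h4
    rw [hI]
    simp only [if_neg h3, if_neg h4, add_zero]
  have hI1 : ∀ e, (e = e₃ ∨ e = e₄) → I e = 1 := by
    intro e h
    rw [hI]
    rcases h with h | h
    · rw [h]
      simp only [if_true, if_neg h34, add_zero]
    · rw [h]
      simp only [if_true, if_neg h34.symm, zero_add]
  obtain ⟨a', ha'⟩ : ∃ a' : E → Option J, a' = fun e =>
      if (e = e₃ ∨ e = e₄) ∧ a e = f then none else some (a e) := ⟨_, rfl⟩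
  obtain ⟨b', hb'⟩ : ∃ b' : E → Option J, b' = fun e =>
      if (e = e₃ ∨ e = e₄) ∧ b e = f then none else some (b e) := ⟨_, rfl⟩
  have hkey : ∀ (q' : Option J → ZMod 2) (e : E), q' (a' e) + q' (b' e) =
      q' (some (a e)) + q' (some (b e)) + (q' none + q' (some f)) * I e := by
    intro q' e
    by_cases he : e = e₃ ∨ e = e₄
    · have hs : e ∈ star a b f := (hstar e).2 (by tauto)
      unfold star at hs
      rw [Finset.mem_filter] at hs
      rw [hI1 e he, mul_one, ha', hb']
      rcases hs.2 with ⟨h3, h4⟩ | ⟨h3, h4⟩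
      · simp only [if_pos (And.intro he h3), if_neg (fun h : _ ∧ _ => h4 h.2)]
        rw [h3]
        linear_combination -h2 (q' (some f))
      · simp only [if_pos (And.intro he h4), if_neg (fun h : _ ∧ _ => h3 h.2)]
        rw [h4]
        linear_combination -h2 (q' (some f))
    · have h3 : e ≠ e₃ := fun h => he (Or.inl h)
      have h4 : e ≠ e₄ := fun h => he (Or.inr h)
      rw [hIe e h3 h4, mul_zero, add_zero, ha', hb']
      simp only [if_neg (fun h : _ ∧ _ => he h.1)]
  refine ⟨Option J, inferInstance, a', b', fun ζ => ?_⟩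
  rw [hcyc]
  constructor
  · rintro ⟨δ, hδ⟩
    obtain ⟨q, hq⟩ := (hrep _).1 hδ
    refine ⟨fun o => o.elim (δ + q f) q, fun e =>
      Eq.trans ?_ (hkey (fun o => o.elim (δ + q f) q) e).symm⟩
    have h3 := hq e
    have h5 : ζ e + δ * I e = q (a e) + q (b e) := h3
    show ζ e = q (a e) + q (b e) + (δ + q f + q f) * I e
    rw [← h5]
    linear_combination -(δ * h2 (I e)) - h2 (q f) * I e
  · rintro ⟨q', hq'⟩
    refine ⟨q' none + q' (some f), (hrep _).2 ⟨fun j => q' (some j), fun e => ?_⟩⟩
    have h3 := hq' e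
    rw [hkey] at h3
    show ζ e + (q' none + q' (some f)) * I e = q' (some (a e)) + q' (some (b e))
    rw [h3]
    linear_combination h2 ((q' none + q' (some f)) * I e)

end Pool.Agent.H32.BD
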