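import Pool.Agent.H32.BD.KC1

set_option autoImplicit false

/-!
The theorem of Kostochka and Yancey for vertex-critical graphs, second part: local structure and
final count.
-/

namespace Pool.Agent.H32.BD

open Finset Pool.Agent.H32.BC

variable {V : Type}

theorem exists_nc [Fintype V] (ih : IHc (Fintype.card V)) (H : SimpleGraph V) (R : Finset V)
    (hR : R ≠ univ) (hnc : ¬ ∃ φ : V → Fin 3, ProperOn H R φ) :
    ∃ S : Finset V, P H S ≤ 4 ∧ ¬ ∃ φ : V → Fin 3, ProperOn H S φ := by
  classical
  have hcard : Fintype.card {v // v ∈ R} < Fintype.card V := by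
    rw [Fintype.card_coe]
    exact Finset.card_lt_card (Finset.ssubset_univ_iff.2 hR)
  let f : {v // v ∈ R} ↪ V := Function.Embedding.subtype (fun v => v ∈ R)
  have hc : ¬ (H.comap f).Colorable 3 := by
    rintro ⟨C⟩
    apply hnc
    refine ⟨fun v => if hv : v ∈ R then C ⟨v, hv⟩ else 0, ?_⟩
    intro u hu v hv huv
    simp only [dif_pos hu, dif_pos hv]
    exact C.valid (show (H.comap f).Adj ⟨u, hu⟩ ⟨v, hv⟩ from huv)
  obtain ⟨S, hS1, hS2⟩ := ih {v // v ∈ R} hcard (H.comap f) hc
  refine ⟨S.map f, ?_, ?_⟩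
  · rw [← P_map H (H.comap f) f S (fun x _ y _ => Iff.rfl)]
    exact hS1
  · rintro ⟨φ, hφ⟩
    apply hS2
    refine ⟨fun v => φ v, fun u hu v hv huv => ?_⟩
    exact hφ u (Finset.mem_map.2 ⟨u, hu, rfl⟩) v (Finset.mem_map.2 ⟨v, hv, rfl⟩) huv

theorem min_degC [Fintype V] [DecidableEq V] (G : SimpleGraph V) (hM : MC G) (v : V) : 3 ≤ (nb G v).card := by
  classical
  by_contra hlt
  push Not at hlt
  have hR : (univ.erase v : Finset V) ≠ univ := by
    intro h
    have h1 : v ∈ (univ.erase v : Finset V) := by rw [h]; exact mem_univ v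
    exact (Finset.notMem_erase v univ) h1
  obtain ⟨φ, hφ⟩ := hM.crit.2 _ hR
  have hγ : ∃ γ : Fin 3, γ ∉ (nb G v).image φ := by
    by_contra h
    push Not at h
    have h1 : (univ : Finset (Fin 3)) ⊆ (nb G v).image φ := fun γ _ => h γ
    have h2 := Finset.card_le_card h1
    have h3 : ((nb G v).image φ).card ≤ (nb G v).card := Finset.card_image_le
    rw [Finset.card_univ, Fintype.card_fin] at h2
    omega
  obtain ⟨γ, hγ⟩ := hγ
  have hγ' : ∀ w, G.Adj v w → φ w ≠ γ := by
    intro w hw h
    apply hγ
    rw [mem_image]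
    exact ⟨w, (mem_nb G v w).2 hw, h⟩
  apply hM.crit.1
  refine ⟨SimpleGraph.Coloring.mk (fun x => if x = v then γ else φ x) ?_⟩
  intro x y hxy
  by_cases hx : x = v
  · subst hx
    have hy : y ≠ x := (G.ne_of_adj hxy).symm
    rw [if_pos rfl, if_neg hy]
    exact (hγ' y hxy).symm
  · by_cases hy : y = v
    · subst hy
      rw [if_neg hx, if_pos rfl]
      exact hγ' x hxy.symm
    · rw [if_neg hx, if_neg hy]
      exact hφ x (by simp [hx]) y (by simp [hy]) hxy

theorem five_leC [Fintype V] [DecidableEq V] (G : SimpleGraph V) (hM : MC G) : 5 ≤ Fintype.card V := by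
  classical
  have hne : Nonempty V := by
    by_contra h
    rw [not_nonempty_iff] at h
    apply hM.crit.1
    exact ⟨SimpleGraph.Coloring.mk (fun x => (h.elim x : Fin 3)) (fun {x} => h.elim x)⟩
  obtain ⟨v⟩ := hne
  have hsub : ∀ v, nb G v ⊆ univ.erase v := by
    intro v w hw
    rw [mem_nb] at hw
    rw [mem_erase]
    exact ⟨(G.ne_of_adj hw).symm, mem_univ _⟩
  have hcard : ∀ v, (nb G v).card + 1 ≤ Fintype.card V := by
    intro v
    have h1 := Finset.card_le_card (hsub v)
    rw [Finset.card_erase_of_mem (mem_univ v), Finset.card_univ] at h1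
    have h2 : 0 < Fintype.card V := Fintype.card_pos_iff.2 ⟨v⟩
    omega
  have h3 := min_degC G hM v
  have h4 := hcard v
  by_contra h5
  have h6 : Fintype.card V = 4 := by omega
  have h7 : 12 ≤ eb G univ univ := by
    rw [eb_eq_sum]
    have h8 : ∑ v : V, 3 ≤ ∑ v : V, (nb G v ∩ univ).card := by
      apply Finset.sum_le_sum
      intro w _
      rw [Finset.inter_univ]
      exact min_degC G hM w
    rw [Finset.sum_const, Finset.card_univ, h6] at h8
    exact h8
  have h9 := hM.pot
  unfold P at h9
  rw [Finset.card_univ, h6] at h9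
  omega

theorem tri_of_PC [Fintype V] [DecidableEq V] (G : SimpleGraph V) (hM : MC G) (S : Finset V) (h2 : 2 ≤ S.card) (hne : S ≠ univ)
    (hP : P G S ≤ 12) : S.card = 3 ∧ ∀ u ∈ S, ∀ v ∈ S, u ≠ v → G.Adj u v := by
  classical
  have h4 : ¬ 4 ≤ S.card := by
    intro h4
    have := claim10C G hM S h4 hne
    omega
  have hle := eb_self_le G S
  have h3 : S.card = 3 := by
    by_contra h3
    have h5 : S.card = 2 := by omega
    unfold P at hP
    rw [h5] at hle hP
    norm_num at hle hP
    omega
  refine ⟨h3, ?_⟩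
  have h6 : 6 ≤ eb G S S := by
    unfold P at hP
    rw [h3] at hP
    omega
  have h7 : ((S ×ˢ S).filter (fun p => G.Adj p.1 p.2)) = S.offDiag := by
    apply Finset.eq_of_subset_of_card_le
    · rintro ⟨x, y⟩ h
      simp only [mem_filter, mem_product, mem_offDiag] at h ⊢
      exact ⟨h.1.1, h.1.2, G.ne_of_adj h.2⟩
    · rw [Finset.offDiag_card, h3]
      refine le_trans ?_ (le_trans h6 ?_)
      · norm_num
      · unfold eb
        apply Finset.card_le_card
        intro p hp
        rw [mem_filter] at hp ⊢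
        exact hp
  intro u hu v hv huv
  have h8 : (u, v) ∈ S.offDiag := by
    rw [mem_offDiag]
    exact ⟨hu, hv, huv⟩
  rw [← h7, mem_filter] at h8
  exact h8.2

theorem no_diamondC [Fintype V] [DecidableEq V] (G : SimpleGraph V) (hM : MC G) (x y z w : V) (hxy : G.Adj x y) (hxz : G.Adj x z)
    (hxw : G.Adj x w) (hyz : G.Adj y z) (hyw : G.Adj y w) (hzw : z ≠ w) : False := by
  classical
  have nxy := G.ne_of_adj hxy
  have nxz := G.ne_of_adj hxz
  have nxw := G.ne_of_adj hxw
  have nyz := G.ne_of_adj hyz
  have nyw := G.ne_of_adj hyw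
  set S : Finset V := {x, y, z, w} with hSdef
  have hcard : S.card = 4 := by
    rw [hSdef]
    rw [Finset.card_insert_of_notMem, Finset.card_insert_of_notMem,
      Finset.card_insert_of_notMem, Finset.card_singleton]
    · simpa using hzw
    · simp [nyz, nyw]
    · simp [nxy, nxz, nxw]
  have h5 := five_leC G hM
  have hne : S ≠ univ := by
    intro h
    rw [h, Finset.card_univ] at hcard
    omega
  have h14 := claim10C G hM S (by omega) hne
  have c1 : 3 ≤ (nb G x ∩ S).card := by
    have h : ({y, z, w} : Finset V) ⊆ nb G x ∩ S := by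
      intro t ht
      rw [mem_inter, mem_nb, hSdef]
      simp only [mem_insert, mem_singleton] at ht ⊢
      rcases ht with rfl | rfl | rfl
      · exact ⟨hxy, Or.inr (Or.inl rfl)⟩
      · exact ⟨hxz, Or.inr (Or.inr (Or.inl rfl))⟩
      · exact ⟨hxw, Or.inr (Or.inr (Or.inr rfl))⟩
    have h2 := Finset.card_le_card h
    rwa [Finset.card_eq_three.2 ⟨y, z, w, nyz, nyw, hzw, rfl⟩] at h2
  have c2 : 3 ≤ (nb G y ∩ S).card := by
    have h : ({x, z, w} : Finset V) ⊆ nb G y ∩ S := by
      intro t ht
      rw [mem_inter, mem_nb, hSdef]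
      simp only [mem_insert, mem_singleton] at ht ⊢
      rcases ht with rfl | rfl | rfl
      · exact ⟨hxy.symm, Or.inl rfl⟩
      · exact ⟨hyz, Or.inr (Or.inr (Or.inl rfl))⟩
      · exact ⟨hyw, Or.inr (Or.inr (Or.inr rfl))⟩
    have h2 := Finset.card_le_card h
    rwa [Finset.card_eq_three.2 ⟨x, z, w, nxz, nxw, hzw, rfl⟩] at h2
  have c3 : 2 ≤ (nb G z ∩ S).card := by
    have h : ({x, y} : Finset V) ⊆ nb G z ∩ S := by
      intro t ht
      rw [mem_inter, mem_nb, hSdef]
      simp only [mem_insert, mem_singleton] at ht ⊢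
      rcases ht with rfl | rfl
      · exact ⟨hxz.symm, Or.inl rfl⟩
      · exact ⟨hyz.symm, Or.inr (Or.inl rfl)⟩
    have h2 := Finset.card_le_card h
    rwa [Finset.card_pair nxy] at h2
  have c4 : 2 ≤ (nb G w ∩ S).card := by
    have h : ({x, y} : Finset V) ⊆ nb G w ∩ S := by
      intro t ht
      rw [mem_inter, mem_nb, hSdef]
      simp only [mem_insert, mem_singleton] at ht ⊢
      rcases ht with rfl | rfl
      · exact ⟨hxw.symm, Or.inl rfl⟩
      · exact ⟨hyw.symm, Or.inr (Or.inl rfl)⟩
    have h2 := Finset.card_le_card h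
    rwa [Finset.card_pair nxy] at h2
  have hsum : 10 ≤ eb G S S := by
    rw [eb_eq_sum]
    have h6 : ∑ v ∈ S, (nb G v ∩ S).card = (nb G x ∩ S).card + ((nb G y ∩ S).card +
        ((nb G z ∩ S).card + (nb G w ∩ S).card)) := by
      conv_lhs => rw [hSdef]
      rw [Finset.sum_insert (by simp [nxy, nxz, nxw]), Finset.sum_insert (by simp [nyz, nyw]),
        Finset.sum_insert (by simpa using hzw), Finset.sum_singleton]
    omega
  unfold P at h14
  rw [hcard] at h14
  omega

theorem claim12C [Fintype V] [DecidableEq V] (G : SimpleGraph V) (hM : MC G) (x y a b : V) (hxy : G.Adj x y)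
    (hx : (nb G x).card = 3) (hy : (nb G y).card = 3) (hxa : G.Adj x a) (hxb : G.Adj x b)
    (hay : a ≠ y) (hby : b ≠ y) (hab : a ≠ b) : G.Adj a b := by
  classical
  have nxy := G.ne_of_adj hxy
  have nxa := G.ne_of_adj hxa
  have nxb := G.ne_of_adj hxb
  have hnx : nb G x = {y, a, b} := by
    symm
    apply Finset.eq_of_subset_of_card_le
    · intro t ht
      rw [mem_nb]
      simp only [mem_insert, mem_singleton] at ht
      rcases ht with rfl | rfl | rfl
      · exact hxy
      · exact hxa
      · exact hxb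
    · rw [hx, Finset.card_eq_three.2 ⟨y, a, b, hay.symm, hby.symm, hab, rfl⟩]
  have hxw : ∀ w, G.Adj x w → w = y ∨ w = a ∨ w = b := by
    intro w hw
    rw [← mem_nb, hnx] at hw
    simpa using hw
  have hynx : x ∈ nb G y := (mem_nb G y x).2 hxy.symm
  have h2 : ((nb G y).erase x).card = 2 := by
    rw [Finset.card_erase_of_mem hynx, hy]
  obtain ⟨c, d, hcd, hcd'⟩ := Finset.card_eq_two.1 h2
  have hc1 : c ∈ (nb G y).erase x := by rw [hcd']; simp
  have hd1 : d ∈ (nb G y).erase x := by rw [hcd']; simp
  rw [mem_erase, mem_nb] at hc1 hd1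
  have hyw : ∀ w, G.Adj y w → w = x ∨ w = c ∨ w = d := by
    intro w hw
    by_cases hwx : w = x
    · exact Or.inl hwx
    · right
      have : w ∈ (nb G y).erase x := by
        rw [mem_erase, mem_nb]
        exact ⟨hwx, hw⟩
      rw [hcd'] at this
      simpa using this
  set G' := twG G x y a b nxy hay hby with hG'
  have adj_ne : ∀ u v, u ≠ y → v ≠ y → (G'.Adj u v ↔ G.Adj u v) := by
    intro u v hu hv
    constructor
    · rintro (h | h | h)
      · exact h.2.2
      · exact absurd h.1 hu
      · exact absurd h.1 hv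
    · intro h
      exact Or.inl ⟨hu, hv, h⟩
  have adj_y : ∀ v, G'.Adj y v ↔ (v = x ∨ v = a ∨ v = b) := by
    intro v
    constructor
    · rintro (h | h | h)
      · exact absurd rfl h.1
      · exact h.2
      · rcases h.2 with h3 | h3 | h3
        · exact absurd h3.symm nxy
        · exact absurd h3.symm hay
        · exact absurd h3.symm hby
    · intro h
      exact Or.inr (Or.inl ⟨rfl, h⟩)
  -- (1) not colourable
  have hc' : ¬ G'.Colorable 3 := by
    rintro ⟨C⟩
    have e1 : C x ≠ C y := C.valid ((adj_y x).2 (Or.inl rfl)).symm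
    have e2 : C x ≠ C a := C.valid ((adj_ne x a nxy hay).2 hxa)
    have e3 : C y ≠ C a := C.valid ((adj_y a).2 (Or.inr (Or.inl rfl)))
    have e4 : C x ≠ C b := C.valid ((adj_ne x b nxy hby).2 hxb)
    have e5 : C y ≠ C b := C.valid ((adj_y b).2 (Or.inr (Or.inr rfl)))
    have e6 : C a = C b := fin3_a _ _ _ _ e1 e2 e3 e4 e5
    obtain ⟨γ, hγc, hγd⟩ := fin3_b (C c) (C d)
    obtain ⟨ξ, hξa, hξγ⟩ := fin3_b (C a) γ
    have hcy : c ≠ y := (G.ne_of_adj hc1.2).symm
    have hdy : d ≠ y := (G.ne_of_adj hd1.2).symm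
    have H1 : ∀ w, G.Adj x w → ξ ≠ (if w = x then ξ else if w = y then γ else C w) := by
      intro w hw
      rcases hxw w hw with rfl | rfl | rfl
      · rw [if_neg nxy.symm, if_pos rfl]
        exact hξγ
      · rw [if_neg nxa.symm, if_neg hay]
        exact hξa
      · rw [if_neg nxb.symm, if_neg hby, ← e6]
        exact hξa
    have H2 : ∀ w, G.Adj y w → γ ≠ (if w = x then ξ else if w = y then γ else C w) := by
      intro w hw
      rcases hyw w hw with rfl | rfl | rfl
      · rw [if_pos rfl]
        exact hξγ.symm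
      · rw [if_neg hc1.1, if_neg hcy]
        exact hγc
      · rw [if_neg hd1.1, if_neg hdy]
        exact hγd
    apply hM.crit.1
    refine ⟨SimpleGraph.Coloring.mk
      (fun w => if w = x then ξ else if w = y then γ else C w) ?_⟩
    intro u v huv
    by_cases hu : u = x
    · subst hu
      have := H1 v huv
      simpa using this
    · by_cases hv : v = x
      · subst hv
        have := H1 u huv.symm
        intro h
        apply this
        simpa using h.symm
      · by_cases hu' : u = y
        · subst hu'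
          have := H2 v huv
          simpa [hu] using this
        · by_cases hv' : v = y
          · subst hv'
            have := H2 u huv.symm
            intro h
            apply this
            simpa [hv] using h.symm
          · simp only [if_neg hu, if_neg hv, if_neg hu', if_neg hv']
            exact C.valid ((adj_ne u v hu' hv').2 huv)
  -- (3)
  have P_eq : ∀ T : Finset V, y ∉ T → P G' T = P G T := by
    intro T hT
    have h := P_map G G' (Function.Embedding.refl V) T (by
      intro u hu v hv
      exact adj_ne u v (fun h => hT (h ▸ hu)) (fun h => hT (h ▸ hv)))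
    rw [Finset.map_refl] at h
    exact h
  -- (2) not critical
  have hPsplit : ∀ H : SimpleGraph V, P H univ = 10 + P H (univ.erase y) -
      6 * ((nb H y).card : ℤ) := by
    intro H
    have hd : Disjoint {y} (univ.erase y : Finset V) := by simp
    have hu : (univ : Finset V) = {y} ∪ univ.erase y := by
      rw [← Finset.insert_eq, Finset.insert_erase (mem_univ y)]
    have hn : eb H {y} (univ.erase y) = (nb H y).card := by
      rw [eb_eq_sum, Finset.sum_singleton]
      congr 1
      ext t
      rw [mem_inter, mem_erase, mem_nb]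
      constructor
      · intro h
        exact h.1
      · intro h
        exact ⟨h, (H.ne_of_adj h).symm, mem_univ t⟩
    conv_lhs => rw [hu]
    rw [P_union H hd, P_singleton, hn]
  have hny' : (nb G' y).card = 3 := by
    have : nb G' y = {x, a, b} := by
      ext t
      rw [mem_nb, adj_y]
      simp
    rw [this, Finset.card_eq_three.2 ⟨x, a, b, nxa, nxb, hab, rfl⟩]
  have hpot : 6 ≤ P G' univ := by
    rw [hPsplit G', hny', P_eq _ (Finset.notMem_erase y univ)]
    have h1 := hPsplit G
    rw [hy] at h1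
    have h2 := hM.pot
    rw [h1] at h2
    exact h2
  have hncr : ∃ R : Finset V, R ≠ univ ∧ ¬ ∃ φ : V → Fin 3, ProperOn G' R φ := by
    by_contra hcon
    push Not at hcon
    have hM' : MC G' := ⟨hM.ih, ⟨hc', hcon⟩, hpot⟩
    exact no_diamondC G' hM' x y a b ((adj_y x).2 (Or.inl rfl)).symm
      ((adj_ne x a nxy hay).2 hxa) ((adj_ne x b nxy hby).2 hxb)
      ((adj_y a).2 (Or.inr (Or.inl rfl))) ((adj_y b).2 (Or.inr (Or.inr rfl))) hab
  obtain ⟨R, hRne, hRnc⟩ := hncr
  obtain ⟨S, hPS', hSnc⟩ := exists_nc hM.ih G' R hRne hRnc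
  have hSne : S.Nonempty := nonempty_of_nc G' S hSnc
  have hyS : y ∈ S := by
    by_contra hyS
    have hSu : S ≠ univ := by
      intro h
      exact hyS (by rw [h]; exact mem_univ y)
    obtain ⟨φ, hφ⟩ := hM.crit.2 S hSu
    apply hSnc
    refine ⟨φ, fun u hu v hv huv => hφ u hu v hv ?_⟩
    exact (adj_ne u v (fun h => hyS (h ▸ hu)) (fun h => hyS (h ▸ hv))).1 huv
  set T := S.erase y with hT
  have hyT : y ∉ T := Finset.notMem_erase y S
  have hST : S = {y} ∪ T := by
    rw [← Finset.insert_eq, hT, Finset.insert_erase hyS]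
  have hdis : Disjoint {y} T := by simpa using hyT
  have hP2 : P G' S = 10 + P G T - 6 * (eb G' {y} T : ℤ) := by
    conv_lhs => rw [hST]
    rw [P_union G' hdis, P_singleton, P_eq T hyT]
  have hk : eb G' {y} T = (nb G' y ∩ T).card := by
    rw [eb_eq_sum, Finset.sum_singleton]
  have hsub : nb G' y ∩ T ⊆ {x, a, b} := by
    intro t ht
    rw [mem_inter, mem_nb, adj_y] at ht
    simpa using ht.1
  have hk3 : (nb G' y ∩ T).card ≤ 3 := (Finset.card_le_card hsub).trans Finset.card_le_three
  have hkT : (nb G' y ∩ T).card ≤ T.card := Finset.card_le_card Finset.inter_subset_right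
  rw [hk] at hP2
  have hTcard : 2 ≤ T.card := by
    by_contra h
    have h1 : T.card = 0 ∨ T.card = 1 := by omega
    rcases h1 with h1 | h1
    · rw [Finset.card_eq_zero] at h1
      rw [h1] at hST
      rw [hST, Finset.union_empty, P_singleton] at hPS'
      omega
    · obtain ⟨t, ht⟩ := Finset.card_eq_one.1 h1
      have h2 : P G T = 10 := by rw [ht, P_singleton]
      omega
  have hTne : T ≠ univ := by
    intro h
    exact hyT (by rw [h]; exact mem_univ y)
  have h9 := claim9C G hM T hTcard hTne
  obtain ⟨h3, htri⟩ := tri_of_PC G hM T hTcard hTne (by omega)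
  have hk' : (nb G' y ∩ T).card = 3 := by omega
  have heq : nb G' y ∩ T = {x, a, b} := by
    apply Finset.eq_of_subset_of_card_le hsub
    rw [hk']
    exact Finset.card_le_three
  have haT : a ∈ T := by
    have : a ∈ nb G' y ∩ T := by rw [heq]; simp
    exact (mem_inter.1 this).2
  have hbT : b ∈ T := by
    have : b ∈ nb G' y ∩ T := by rw [heq]; simp
    exact (mem_inter.1 this).2
  exact htri a haT b hbT hab

theorem one_threeC [Fintype V] [DecidableEq V] (G : SimpleGraph V) (hM : MC G) (x y z : V) (hx : (nb G x).card = 3)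
    (hxy : G.Adj x y) (hy : (nb G y).card = 3) (hxz : G.Adj x z) (hz : (nb G z).card = 3) :
    y = z := by
  classical
  by_contra hyz
  have h1 : z ∈ (nb G x).erase y := by
    rw [mem_erase, mem_nb]
    exact ⟨fun h => hyz h.symm, hxz⟩
  have h2 : (((nb G x).erase y).erase z).card = 1 := by
    rw [Finset.card_erase_of_mem h1, Finset.card_erase_of_mem ((mem_nb G x y).2 hxy), hx]
  obtain ⟨w, hw⟩ := Finset.card_eq_one.1 h2
  have hw1 : w ∈ ((nb G x).erase y).erase z := by rw [hw]; simp
  rw [mem_erase, mem_erase, mem_nb] at hw1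
  obtain ⟨hwz, hwy, hxw⟩ := hw1
  have e1 : G.Adj z w := claim12C G hM x y z w hxy hx hy hxz hxw (fun h => hyz h.symm) hwy
    (fun h => hwz h.symm)
  have e2 : G.Adj y w := claim12C G hM x z y w hxz hx hz hxy hxw hyz hwz
    (fun h => hwy h.symm)
  exact no_diamondC G hM x w y z hxw hxy hxz e2.symm e1.symm hyz

theorem ky_coreC [Fintype V] [DecidableEq V] (G : SimpleGraph V) (hM : MC G) : False := by
  classical
  have h5 := five_leC G hM
  set T := univ.filter (fun v => (nb G v).card = 3) with hT
  set F := univ.filter (fun v => ¬ (nb G v).card = 3) with hF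
  have hTF : T.card + F.card = Fintype.card V := by
    rw [hT, hF, Finset.card_filter_add_card_filter_not, Finset.card_univ]
  have hcover : ∀ v, v ∈ T ∨ v ∈ F := by
    intro v
    rw [hT, hF, mem_filter, mem_filter]
    by_cases h : (nb G v).card = 3
    · exact Or.inl ⟨mem_univ _, h⟩
    · exact Or.inr ⟨mem_univ _, h⟩
  have htot : eb G univ univ = ∑ v ∈ T, (nb G v).card + ∑ v ∈ F, (nb G v).card := by
    rw [eb_eq_sum, hT, hF, Finset.sum_filter_add_sum_filter_not]
    exact Finset.sum_congr rfl fun v _ => by rw [Finset.inter_univ]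
  have hsT : ∑ v ∈ T, (nb G v).card = T.card * 3 := by
    rw [Finset.sum_const_nat]
    intro v hv
    exact (mem_filter.1 hv).2
  have hsF : F.card * 4 ≤ ∑ v ∈ F, (nb G v).card := by
    rw [← smul_eq_mul]
    apply Finset.card_nsmul_le_sum
    intro v hv
    have h1 := min_degC G hM v
    have h2 := (mem_filter.1 hv).2
    omega
  have hTF2 : T.card * 2 ≤ eb G T F := by
    rw [eb_eq_sum, ← smul_eq_mul]
    apply Finset.card_nsmul_le_sum
    intro v hv
    have hv3 := (mem_filter.1 hv).2
    have h1 : (nb G v ∩ T).card ≤ 1 := by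
      rw [Finset.card_le_one]
      intro y hy z hz
      rw [mem_inter, mem_nb] at hy hz
      exact one_threeC G hM v y z hv3 hy.1 (mem_filter.1 hy.2).2 hz.1 (mem_filter.1 hz.2).2
    have h2 : nb G v ⊆ (nb G v ∩ T) ∪ (nb G v ∩ F) := by
      intro t ht
      rw [mem_union, mem_inter, mem_inter]
      rcases hcover t with h | h
      · exact Or.inl ⟨ht, h⟩
      · exact Or.inr ⟨ht, h⟩
    have h3 := (Finset.card_le_card h2).trans (Finset.card_union_le _ _)
    omega
  have hF2 : eb G T F ≤ ∑ v ∈ F, (nb G v).card := by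
    rw [eb_comm, eb_eq_sum]
    exact Finset.sum_le_sum fun v _ => Finset.card_le_card Finset.inter_subset_left
  have hne : (univ : Finset V).Nonempty := by
    rw [← Finset.card_pos, Finset.card_univ]
    omega
  have h6 := hM.pot
  unfold P at h6
  rw [Finset.card_univ, htot, hsT] at h6
  omega

theorem all_ihc (n : ℕ) : IHc n := by
  classical
  induction n with
  | zero =>
    intro W _ h
    exact absurd h (Nat.not_lt_zero _)
  | succ n ih =>
    intro W _ h H hc
    have : DecidableEq W := Classical.decEq W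
    by_cases h1 : Fintype.card W < n
    · exact ih W h1 H hc
    · have h2 : Fintype.card W = n := by omega
      by_cases hR : ∃ R : Finset W, R ≠ univ ∧ ¬ ∃ φ : W → Fin 3, ProperOn H R φ
      · obtain ⟨R, hR1, hR2⟩ := hR
        exact exists_nc (h2 ▸ ih) H R hR1 hR2
      · push Not at hR
        by_contra hcon
        push Not at hcon
        have hnc : ¬ ∃ φ : W → Fin 3, ProperOn H univ φ := by
          rintro ⟨φ, hφ⟩
          exact hc ⟨SimpleGraph.Coloring.mk φ
            (fun {u v} huv => hφ u (mem_univ u) v (mem_univ v) huv)⟩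
        have hpot : 6 ≤ P H univ := by
          by_contra hlt
          have h3 : P H univ ≤ 4 := by
            obtain ⟨k, hk⟩ := P_even H univ
            omega
          exact hnc (hcon univ h3)
        exact ky_coreC H ⟨h2 ▸ ih, ⟨hc, hR⟩, hpot⟩

/-- Kostochka and Yancey: a vertex-critical graph which is not 3-colourable has potential at most
2. -/
theorem kyc {W : Type} [Fintype W] (G : SimpleGraph W) (h : Crit G) : P G univ ≤ 4 := by
  classical
  by_contra hlt
  have h6 : 6 ≤ P G univ := by
    obtain ⟨k, hk⟩ := P_even G univ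
    omega
  exact ky_coreC G ⟨all_ihc _, h, h6⟩

end Pool.Agent.H32.BD
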