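import Pool.Agent.H32.BD.GA
import Pool.Agent.H32.BD.GB
import Pool.Agent.H32.BD.GE
import Pool.Agent.H32.BD.KC2
import Pool.Agent.H32.BC.Rank

set_option autoImplicit false

/-!
`face4`: a critical triangle-free graph with the cut space property has a representation with a
star which is a 4-cycle.

Proof. `kyc`: `P G univ ≤ 4`, so `3 |E| ≥ 5 n - 2` (`eb G univ univ = 2 |E|`, see `g5_sparse` in
`Pool/Agent/H32/BC/G5Sparse.lean`). `ml_iff`: the cycle space is a cut space. `rank_cyc`, `rank_le`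
(`B = univ`, nonempty: the empty graph is colourable): `finrank + n ≥ |E| + 1`. So
`finrank ≥ |E| + 1 - n > 0` (so the space is not `⊥`) and `2 |E| < 5 (finrank + 1)`, because
`5 (|E| + 2 - n) > 2 |E|` iff `3 |E| > 5 n - 10`. `star_small` with `g = 5` gives `J, a, b, f`. Apply
`four_cycle` to `ζ e = q (a e) + q (b e)`, `q = Pi.single f 1`: `ζ e ≠ 0` iff `e ∈ star a b f`.
-/

namespace Pool.Agent.H32.BD

open Finset Pool.Agent.H32.BC

open Classical in
private theorem gf1_eb {V : Type} [Fintype V] (G : SimpleGraph V) [Fintype G.edgeSet] :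
    eb G univ univ ≤ 2 * Fintype.card G.edgeSet := by
  unfold eb
  set A := ((univ : Finset V) ×ˢ (univ : Finset V)).filter (fun p => G.Adj p.1 p.2) with hA
  have h1 : A.card ≤ 2 * (A.image (fun p : V × V => s(p.1, p.2))).card := by
    refine Finset.card_le_mul_card_image A 2 ?_
    intro e he
    obtain ⟨⟨x, y⟩, hxy, rfl⟩ := Finset.mem_image.1 he
    have h2 : A.filter (fun p : V × V => s(p.1, p.2) = s(x, y)) ⊆ {(x, y), (y, x)} := by
      intro p hp
      have h3 := (Finset.mem_filter.1 hp).2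
      rw [Finset.mem_insert, Finset.mem_singleton]
      rcases Sym2.eq_iff.1 h3 with h | h
      · left; exact Prod.ext h.1 h.2
      · right; exact Prod.ext h.1 h.2
    exact (Finset.card_le_card h2).trans Finset.card_le_two
  rw [← Set.toFinset_card]
  refine h1.trans (Nat.mul_le_mul_left 2 (Finset.card_le_card ?_))
  intro e he
  obtain ⟨⟨x, y⟩, hxy, rfl⟩ := Finset.mem_image.1 he
  rw [hA, Finset.mem_filter] at hxy
  rw [Set.mem_toFinset]
  exact (SimpleGraph.mem_edgeSet G).2 hxy.2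

private theorem gf1_z {J : Type} [DecidableEq J] (u v f : J) :
    (Pi.single f (1 : ZMod 2) : J → ZMod 2) u + (Pi.single f (1 : ZMod 2) : J → ZMod 2) v ≠ 0 ↔
      ((u = f ∧ v ≠ f) ∨ (u ≠ f ∧ v = f)) := by
  rw [Pi.single_apply, Pi.single_apply]
  by_cases hu : u = f <;> by_cases hv : v = f <;> simp [hu, hv]
  decide

theorem face4 {V : Type} [Fintype V] [DecidableEq V] (G : SimpleGraph V) [Fintype G.edgeSet]
    (hG : ML G) (htf : TF G) (hcr : Crit G) :
    ∃ (J : Type) (_ : Finite J) (a b : G.edgeSet → J) (f : J) (x y z u : V)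
      (e₁ e₂ e₃ e₄ : G.edgeSet), Rep (cyc (V := V) (Subtype.val : G.edgeSet → Sym2 V)) a b ∧
      (e₁ : Sym2 V) = s(x, y) ∧ (e₂ : Sym2 V) = s(y, z) ∧ (e₃ : Sym2 V) = s(z, u) ∧
      (e₄ : Sym2 V) = s(u, x) ∧ x ≠ z ∧ y ≠ u ∧
      ∀ e, e ∈ star a b f ↔ (e = e₁ ∨ e = e₂ ∨ e = e₃ ∨ e = e₄) := by
  classical
  have hne : Nonempty V := by
    by_contra h
    rw [not_nonempty_iff] at h
    apply hcr.1
    exact ⟨SimpleGraph.Coloring.mk (fun x => (h.elim x : Fin 3)) (fun {x} => h.elim x)⟩
  have hP := kyc G hcr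
  have heb := gf1_eb G
  have hZ := (ml_iff G).1 hG
  have hr := rank_cyc (V := V) (Subtype.val : G.edgeSet → Sym2 V)
  have hE : Fintype.card {x // x ∈ G.edgeSet} = Fintype.card G.edgeSet := rfl
  rw [hE] at hr
  have hr2 := rank_le (Subtype.val : G.edgeSet → Sym2 V) univ univ_nonempty
    (fun e x _ => mem_univ x) (fun e => G.not_isDiag_of_mem_edgeSet e.2)
  rw [Finset.card_univ] at hr2
  unfold P at hP
  rw [Finset.card_univ] at hP
  have h3 : 5 * Fintype.card V ≤ 3 * Fintype.card G.edgeSet + 2 := by omega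
  have h4 : 0 < Fintype.card V := Fintype.card_pos
  have hbot : cyc (V := V) (Subtype.val : G.edgeSet → Sym2 V) ≠ ⊥ := by
    intro h
    rw [h, finrank_bot] at hr
    omega
  obtain ⟨J, hJ, a, b, f, hrep, hsne, hsc⟩ :=
    star_small (cyc (V := V) (Subtype.val : G.edgeSet → Sym2 V)) hZ hbot 5 (by rw [hE]; omega)
  set ζ : G.edgeSet → ZMod 2 := fun e =>
    (Pi.single f (1 : ZMod 2) : J → ZMod 2) (a e) + (Pi.single f (1 : ZMod 2) : J → ZMod 2) (b e)
    with hζ
  have hiff : ∀ e, ζ e ≠ 0 ↔ e ∈ star a b f := by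
    intro e
    unfold star
    rw [mem_filter]
    simp only [mem_univ, true_and]
    exact gf1_z (a e) (b e) f
  have hmem : ζ ∈ cyc (V := V) (Subtype.val : G.edgeSet → Sym2 V) :=
    (hrep ζ).2 ⟨Pi.single f 1, fun e => rfl⟩
  have hsupp : supp ζ = star a b f := by
    ext e
    unfold supp
    rw [mem_filter]
    simp only [mem_univ, true_and]
    exact hiff e
  obtain ⟨x, y, z, u, e₁, e₂, e₃, e₄, h1, h2, h3, h4, h5, h6, h7⟩ :=
    four_cycle (Subtype.val : G.edgeSet → Sym2 V) Subtype.val_injective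
      (fun e => G.not_isDiag_of_mem_edgeSet e.2)
      (by
        intro e₁ e₂ e₃ x y w h1 h2 h3
        have k1 : G.Adj x y := by
          have := e₁.2
          rwa [h1, SimpleGraph.mem_edgeSet] at this
        have k2 : G.Adj y w := by
          have := e₂.2
          rwa [h2, SimpleGraph.mem_edgeSet] at this
        have k3 : G.Adj w x := by
          have := e₃.2
          rwa [h3, SimpleGraph.mem_edgeSet] at this
        exact htf x y w k1 k2 k3.symm) ζ hmem (by rw [hsupp]; exact hsne) (by rw [hsupp]; exact hsc)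
  exact ⟨J, hJ, a, b, f, x, y, z, u, e₁, e₂, e₃, e₄, hrep, h1, h2, h3, h4, h5, h6,
    fun e => (hiff e).symm.trans (h7 e)⟩

end Pool.Agent.H32.BD
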