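import Pool.Agent.H32.BC.KFin

set_option autoImplicit false

/-!
The theorem of Kostochka and Yancey (`k = 4`) for vertex-critical graphs: if `G` is not 3-colourable
but every proper subset of its vertices is then `5 n - 3 e ≤ 2`.
-/

namespace Pool.Agent.H32.BD

open Finset Pool.Agent.H32.BC

/-- `G` is not 3-colourable, but all proper vertex subsets are -/
def Crit {V : Type} [Fintype V] (G : SimpleGraph V) : Prop :=
  ¬ G.Colorable 3 ∧ ∀ R : Finset V, R ≠ univ → ∃ φ : V → Fin 3, ProperOn G R φ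

/-- every graph with fewer than `n` vertices which is not 3-colourable has a non-colourable set of
potential at most 2 -/
def IHc (n : ℕ) : Prop :=
  ∀ (W : Type) [Fintype W], Fintype.card W < n → ∀ H : SimpleGraph W, ¬ H.Colorable 3 →
    ∃ S : Finset W, P H S ≤ 4 ∧ ¬ ∃ φ : W → Fin 3, ProperOn H S φ

/-- `G` is a minimal counterexample -/
structure MC {V : Type} [Fintype V] (G : SimpleGraph V) : Prop where
  ih : IHc (Fintype.card V)
  crit : Crit G
  pot : 6 ≤ P G univ

theorem nonempty_of_nc {V : Type} (G : SimpleGraph V) (S : Finset V)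
    (h : ¬ ∃ φ : V → Fin 3, ProperOn G S φ) : S.Nonempty := by
  by_contra hne
  rw [Finset.not_nonempty_iff_eq_empty] at hne
  apply h
  refine ⟨fun _ => 0, ?_⟩
  intro u hu
  rw [hne] at hu
  exact absurd hu (Finset.notMem_empty u)

theorem ihyp_of_ihc {n : ℕ} (h : IHc n) : IHyp n := by
  intro W _ hW H hS
  by_contra hc
  obtain ⟨S, hS1, hS2⟩ := h W hW H hc
  have := hS S (nonempty_of_nc H S hS2)
  omega

variable {V : Type}

theorem yLemmaC [Fintype V] [DecidableEq V] (G : SimpleGraph V) (h : MC G) (R : Finset V)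
    (h4 : 4 ≤ R.card) (φ : V → Fin 3) (hφ : ProperOn G R φ) :
    ∃ (W : Finset V) (A : Finset (Fin 3)), Disjoint W R ∧ A.Nonempty ∧
      P G (W ∪ R) + (10 * (A.card : ℤ) - 3 * ((A.card : ℤ) * ((A.card : ℤ) - 1))) +
        6 * ((eb G W R : ℤ) - (eb G W (R.filter (fun v => φ v ∈ A)) : ℤ)) ≤ 4 + P G R := by
  classical
  have hcard : Fintype.card ({v // v ∉ R} ⊕ Fin 3) < Fintype.card V := by
    rw [Fintype.card_sum, Fintype.card_fin, Fintype.card_subtype]
    have h1 := Finset.card_filter_add_card_filter_not (s := (univ : Finset V)) (fun v => v ∈ R)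
    have h2 : (univ.filter (fun v => v ∈ R)) = R := by ext v; simp
    rw [h2, Finset.card_univ] at h1
    omega
  obtain ⟨U, hPU', hncU⟩ := h.ih _ hcard _ (yG_not_colorable G R φ hφ h.crit.1)
  have hU : U.Nonempty := nonempty_of_nc _ U hncU
  let inlE : {v // v ∉ R} ↪ ({v // v ∉ R} ⊕ Fin 3) := ⟨Sum.inl, Sum.inl_injective⟩
  let inrE : Fin 3 ↪ ({v // v ∉ R} ⊕ Fin 3) := ⟨Sum.inr, Sum.inr_injective⟩
  let sub : {v // v ∉ R} ↪ V := Function.Embedding.subtype (fun v => v ∉ R)
  let U0 : Finset {v // v ∉ R} := univ.filter (fun u => Sum.inl u ∈ U)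
  let A : Finset (Fin 3) := univ.filter (fun i => Sum.inr i ∈ U)
  have hUeq : U = U0.map inlE ∪ A.map inrE := by
    ext x
    rcases x with u | i
    · simp [U0, A, inlE, inrE]
    · simp [U0, A, inlE, inrE]
  have hdisj : Disjoint (U0.map inlE) (A.map inrE) := by
    rw [Finset.disjoint_left]
    intro x h1 h2
    rw [Finset.mem_map] at h1 h2
    obtain ⟨u, _, rfl⟩ := h1
    obtain ⟨i, _, h⟩ := h2
    simp [inlE, inrE] at h
  have hL : P (yG G R φ) (U0.map inlE) = P G (U0.map sub) := by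
    rw [← P_map (yG G R φ) (G.comap sub) inlE U0 (fun x _ y _ => Iff.rfl),
      ← P_map G (G.comap sub) sub U0 (fun x _ y _ => Iff.rfl)]
  have hWR : Disjoint (U0.map sub) R := by
    rw [Finset.disjoint_left]
    intro x h1 h2
    rw [Finset.mem_map] at h1
    obtain ⟨u, _, rfl⟩ := h1
    exact u.2 h2
  have hRne : R.Nonempty := by
    rw [← Finset.card_pos]
    omega
  have hA : A.Nonempty := by
    by_contra hA
    rw [Finset.not_nonempty_iff_eq_empty] at hA
    rw [hA, Finset.map_empty, Finset.union_empty] at hUeq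
    have hWne : U0.map sub ≠ univ := by
      intro h1
      obtain ⟨r, hr⟩ := hRne
      exact (Finset.disjoint_left.1 hWR) (by rw [h1]; exact mem_univ r) hr
    obtain ⟨ψ, hψ⟩ := h.crit.2 _ hWne
    apply hncU
    refine ⟨fun x => Sum.elim (fun u : {v // v ∉ R} => ψ u) (fun _ => 0) x, ?_⟩
    intro x hx y hy hxy
    rw [hUeq, Finset.mem_map] at hx hy
    obtain ⟨u, hu, rfl⟩ := hx
    obtain ⟨v, hv, rfl⟩ := hy
    exact hψ u (Finset.mem_map.2 ⟨u, hu, rfl⟩) v (Finset.mem_map.2 ⟨v, hv, rfl⟩) hxy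
  have hPA : 10 * (A.card : ℤ) - 3 * ((A.card : ℤ) * ((A.card : ℤ) - 1)) ≤
      P (yG G R φ) (A.map inrE) := by
    unfold P
    have h1 := eb_self_le (yG G R φ) (A.map inrE)
    rw [Finset.card_map] at h1 ⊢
    have h2 : ((A.card * (A.card - 1) : ℕ) : ℤ) = (A.card : ℤ) * ((A.card : ℤ) - 1) := by
      have : 1 ≤ A.card := hA.card_pos
      push_cast [Nat.cast_sub this]
      ring
    rw [← h2]
    omega
  have heb : eb (yG G R φ) (U0.map inlE) (A.map inrE) ≤
      eb G (U0.map sub) (R.filter (fun v => φ v ∈ A)) := by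
    unfold eb
    apply Finset.card_le_card_of_surjOn (fun p : V × V =>
      ((if h : p.1 ∉ R then Sum.inl ⟨p.1, h⟩ else Sum.inr 0 : {v // v ∉ R} ⊕ Fin 3),
        (Sum.inr (φ p.2) : {v // v ∉ R} ⊕ Fin 3)))
    rintro ⟨x, y⟩ hxy
    simp only [Finset.coe_filter, Set.mem_ofPred_eq, mem_product, mem_map] at hxy
    obtain ⟨⟨⟨u, hu, rfl⟩, ⟨i, hi, rfl⟩⟩, hadj⟩ := hxy
    obtain ⟨w, hw, hwi, huw⟩ := hadj
    refine ⟨((u : V), w), ?_, ?_⟩
    · simp only [Finset.coe_filter, Set.mem_ofPred_eq, mem_product, mem_map, mem_filter]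
      exact ⟨⟨⟨u, hu, rfl⟩, hw, by rw [hwi]; exact hi⟩, huw⟩
    · simp only [Prod.mk.injEq]
      constructor
      · rw [dif_pos u.2]
        rfl
      · rw [hwi]
        rfl
  refine ⟨U0.map sub, A, hWR, hA, ?_⟩
  rw [P_union G hWR]
  have h5 : P (yG G R φ) U = P (yG G R φ) (U0.map inlE) + P (yG G R φ) (A.map inrE) -
      6 * (eb (yG G R φ) (U0.map inlE) (A.map inrE) : ℤ) := by
    conv_lhs => rw [hUeq]
    exact P_union _ hdisj
  rw [h5, hL] at hPU'
  omega

theorem card_A (A : Finset (Fin 3)) (hA : A.Nonempty) :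
    A.card = 1 ∨ A.card = 2 ∨ A.card = 3 := by
  have h7 := hA.card_pos
  have h8 : A.card ≤ 3 := by
    have := Finset.card_le_univ A
    rwa [Fintype.card_fin] at this
  omega

/-- claim 9 -/
theorem claim9C [Fintype V] [DecidableEq V] (G : SimpleGraph V) (h : MC G) (R : Finset V)
    (h2 : 2 ≤ R.card) (hR : R ≠ univ) : 12 ≤ P G R := by
  classical
  by_contra hlt
  push Not at hlt
  -- choose a set of minimal potential
  let F : Finset (Finset V) := univ.filter (fun R => 2 ≤ R.card ∧ R ≠ univ)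
  have hF : F.Nonempty := ⟨R, by simp only [F, mem_filter]; exact ⟨mem_univ _, h2, hR⟩⟩
  obtain ⟨R₀, hR₀F, hmin⟩ := Finset.exists_min_image F (fun R => P G R) hF
  simp only [F, mem_filter] at hR₀F
  obtain ⟨_, hR₀2, hR₀ne⟩ := hR₀F
  have hlt0 : P G R₀ < 12 := lt_of_le_of_lt (hmin R (by
    simp only [F, mem_filter]; exact ⟨mem_univ _, h2, hR⟩)) hlt
  have hlt' : P G R₀ ≤ 10 := by
    obtain ⟨k, hk⟩ := P_even G R₀
    omega
  have hle := eb_self_le G R₀
  have h4 : 4 ≤ R₀.card := by
    by_contra h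
    have h3 : R₀.card = 2 ∨ R₀.card = 3 := by omega
    unfold P at hlt'
    rcases h3 with h3 | h3
    · rw [h3] at hle hlt'
      norm_num at hle hlt'
      omega
    · rw [h3] at hle hlt'
      norm_num at hle hlt'
      omega
  obtain ⟨φ, hφ⟩ := h.crit.2 R₀ hR₀ne
  obtain ⟨W, A, hWR, hA, hh⟩ := yLemmaC G h R₀ h4 φ hφ
  have h1 : eb G W (R₀.filter (fun v => φ v ∈ A)) ≤ eb G W R₀ :=
    eb_mono G (Finset.Subset.refl W) (Finset.filter_subset _ _)
  have hPle : P G (W ∪ R₀) + 6 ≤ P G R₀ := by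
    rcases card_A A hA with h6 | h6 | h6 <;> rw [h6] at hh <;> norm_num at hh <;> omega
  by_cases hu : W ∪ R₀ = univ
  · rw [hu] at hPle
    have := h.pot
    omega
  · have h8 : 2 ≤ (W ∪ R₀).card := by
      have := Finset.card_le_card (Finset.subset_union_right : R₀ ⊆ W ∪ R₀)
      omega
    have h9 := hmin (W ∪ R₀) (by simp only [F, mem_filter]; exact ⟨mem_univ _, h8, hu⟩)
    omega

/-- claim 10 -/
theorem claim10C [Fintype V] [DecidableEq V] (G : SimpleGraph V) (h : MC G) (R : Finset V)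
    (h4 : 4 ≤ R.card) (hR : R ≠ univ) : 14 ≤ P G R := by
  classical
  by_contra hlt
  push Not at hlt
  have hlt' : P G R ≤ 12 := by
    obtain ⟨k, hk⟩ := P_even G R
    omega
  set Rs := R.filter (fun u => ∃ w, w ∉ R ∧ G.Adj u w) with hRs
  by_cases hone : ∀ u₁ ∈ Rs, ∀ u₂ ∈ Rs, u₁ = u₂
  · have hcard1 : Rs.card ≤ 1 := Finset.card_le_one.2 hone
    set T := univ.filter (fun v => v ∉ R ∨ v ∈ Rs) with hT
    have hTne : T ≠ univ := by
      have h1 : ∃ v ∈ R, v ∉ Rs := by
        by_contra h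
        push Not at h
        have := Finset.card_le_card (fun v hv => h v hv : R ⊆ Rs)
        omega
      obtain ⟨v, hv, hv'⟩ := h1
      intro h
      have : v ∈ T := by rw [h]; exact mem_univ v
      rw [hT, mem_filter] at this
      rcases this.2 with h2 | h2
      · exact h2 hv
      · exact hv' h2
    obtain ⟨φ₁, hφ₁⟩ := h.crit.2 R hR
    obtain ⟨φ₂, hφ₂⟩ := h.crit.2 T hTne
    have hπ : ∃ π : Equiv.Perm (Fin 3), ∀ u ∈ Rs, π (φ₂ u) = φ₁ u := by
      by_cases hne : Rs.Nonempty
      · obtain ⟨u, hu⟩ := hne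
        refine ⟨Equiv.swap (φ₂ u) (φ₁ u), fun u' hu' => ?_⟩
        rw [hone u' hu' u hu, Equiv.swap_apply_left]
      · refine ⟨1, fun u hu => absurd ⟨u, hu⟩ hne⟩
    obtain ⟨π, hπ⟩ := hπ
    have hmix : ∀ x ∈ R, ∀ y ∉ R, G.Adj x y → φ₁ x ≠ π (φ₂ y) := by
      intro x hx y hy hxy
      have hxs : x ∈ Rs := by
        rw [hRs, mem_filter]
        exact ⟨hx, y, hy, hxy⟩
      rw [← hπ x hxs]
      intro h
      have h2 := π.injective h
      refine hφ₂ x ?_ y ?_ hxy h2
      · rw [hT, mem_filter]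
        exact ⟨mem_univ _, Or.inr hxs⟩
      · rw [hT, mem_filter]
        exact ⟨mem_univ _, Or.inl hy⟩
    apply h.crit.1
    refine ⟨SimpleGraph.Coloring.mk (fun v => if v ∈ R then φ₁ v else π (φ₂ v)) ?_⟩
    intro x y hxy
    by_cases hx : x ∈ R
    · by_cases hy : y ∈ R
      · rw [if_pos hx, if_pos hy]
        exact hφ₁ x hx y hy hxy
      · rw [if_pos hx, if_neg hy]
        exact hmix x hx y hy hxy
    · by_cases hy : y ∈ R
      · rw [if_neg hx, if_pos hy]
        exact (hmix y hy x hx hxy.symm).symm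
      · rw [if_neg hx, if_neg hy]
        intro h
        have h2 := π.injective h
        refine hφ₂ x ?_ y ?_ hxy h2
        · rw [hT, mem_filter]
          exact ⟨mem_univ _, Or.inl hx⟩
        · rw [hT, mem_filter]
          exact ⟨mem_univ _, Or.inl hy⟩
  · push Not at hone
    obtain ⟨u₁, hu₁, u₂, hu₂, hne⟩ := hone
    have hu₁R : u₁ ∈ R := (mem_filter.1 hu₁).1
    have hu₂R : u₂ ∈ R := (mem_filter.1 hu₂).1
    have hsub : ∀ S ⊆ R, S.Nonempty → 6 ≤ P (G ⊔ SimpleGraph.edge u₁ u₂) S := by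
      intro S hSR hSne
      have h1 := hSne.card_pos
      by_cases h2 : S.card = 1
      · obtain ⟨v, rfl⟩ := Finset.card_eq_one.1 h2
        rw [P_singleton]
        norm_num
      · have h3 : S ≠ univ := by
          intro h
          apply hR
          rw [Finset.eq_univ_iff_forall]
          intro v
          exact hSR (by rw [h]; exact mem_univ v)
        have h4 := claim9C G h S (by omega) h3
        have h5 := eb_sup_edge G u₁ u₂ S
        unfold P at h4 ⊢
        omega
    obtain ⟨φ, hφ⟩ := exists_col_of_sub (ihyp_of_ihc h.ih) (G ⊔ SimpleGraph.edge u₁ u₂) R hR hsub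
    have hφG : ProperOn G R φ := fun x hx y hy hxy => hφ x hx y hy (Or.inl hxy)
    have hφu : φ u₁ ≠ φ u₂ := by
      apply hφ u₁ hu₁R u₂ hu₂R
      rw [SimpleGraph.sup_adj, SimpleGraph.edge_adj]
      exact Or.inr ⟨Or.inl ⟨rfl, rfl⟩, hne⟩
    obtain ⟨W, A, hWR, hA, hh⟩ := yLemmaC G h R h4 φ hφG
    have h1 : eb G W (R.filter (fun v => φ v ∈ A)) ≤ eb G W R :=
      eb_mono G (Finset.Subset.refl W) (Finset.filter_subset _ _)
    have hge : W ∪ R ≠ univ → 12 ≤ P G (W ∪ R) := by
      intro hne3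
      apply claim9C G h (W ∪ R) _ hne3
      have := Finset.card_le_card (Finset.subset_union_right : R ⊆ W ∪ R)
      omega
    have h5 : 6 ≤ P G (W ∪ R) := by
      by_cases hu : W ∪ R = univ
      · rw [hu]
        exact h.pot
      · have := hge hu
        omega
    rcases card_A A hA with h6 | h6 | h6
    · have hWRu : W ∪ R = univ := by
        by_contra hne3
        have h8 := hge hne3
        rw [h6] at hh
        norm_num at hh
        omega
      have hu : ∃ u ∈ Rs, φ u ∉ A := by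
        by_contra hcon
        push Not at hcon
        have h7 := hcon u₁ hu₁
        have h8 := hcon u₂ hu₂
        exact hφu (Finset.card_le_one.1 h6.le _ h7 _ h8)
      obtain ⟨u, hu, huA⟩ := hu
      obtain ⟨huR, w, hw, huw⟩ := mem_filter.1 hu
      have hwW : w ∈ W := by
        have : w ∈ W ∪ R := by rw [hWRu]; exact mem_univ w
        rcases mem_union.1 this with h7 | h7
        · exact h7
        · exact absurd h7 hw
      have h9 : eb G W (R.filter (fun v => φ v ∈ A)) < eb G W R := by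
        unfold eb
        apply Finset.card_lt_card
        rw [Finset.ssubset_iff_of_subset]
        · refine ⟨(w, u), ?_, ?_⟩
          · simp only [mem_filter, mem_product]
            exact ⟨⟨hwW, huR⟩, huw.symm⟩
          · simp only [mem_filter, mem_product]
            intro h10
            exact huA h10.1.2.2
        · apply Finset.filter_subset_filter
          exact Finset.product_subset_product (Finset.Subset.refl W) (Finset.filter_subset _ _)
      rw [h6] at hh
      norm_num at hh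
      omega
    · rw [h6] at hh
      norm_num at hh
      omega
    · rw [h6] at hh
      norm_num at hh
      omega

end Pool.Agent.H32.BD
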